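import Mathlib

set_option autoImplicit false

namespace Pool.Agent.Helper58.NF

open Filter Topology

/-- the limiting exponent, as a function of the small parameter -/
noncomputable def lim (x : ℝ) : ℝ :=
  1 / (2 * (1 - x)) * ((1 + x) / Real.log 4) ^ 2 + 2 * ((1 + x) / Real.log 4) * x ^ 2 +
    2 * x ^ 2 * (2 * ((1 + x) / Real.log 4) + 3 * x ^ 2)

lemma log_four : Real.log 4 = 2 * Real.log 2 := by
  rw [show (4 : ℝ) = 2 ^ 2 by norm_num, Real.log_pow]
  norm_num

lemma lim_zero : lim 0 = 1 / (8 * Real.log 2 ^ 2) := by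
  have h : 0 < Real.log 2 := Real.log_pos (by norm_num)
  unfold lim
  rw [log_four]
  field_simp
  norm_num

lemma exists_q {η : ℝ} (hη : 0 < η) : ∃ q : ℕ, 4 ≤ q ∧ lim (1 / (q : ℝ)) < 1 / (8 * Real.log 2 ^ 2) + η := by
  have h4 : Real.log 4 ≠ 0 := by
    have : 0 < Real.log 4 := Real.log_pos (by norm_num)
    exact this.ne'
  have hc : ContinuousAt lim 0 := by
    unfold lim
    refine ContinuousAt.add (ContinuousAt.add (ContinuousAt.mul ?_ ?_) ?_) ?_
    · apply ContinuousAt.div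
      · fun_prop
      · fun_prop
      · norm_num
    · fun_prop
    · fun_prop
    · fun_prop
  have h1 : Tendsto (fun q : ℕ => lim (1 / (q : ℝ))) atTop (𝓝 (1 / (8 * Real.log 2 ^ 2))) := by
    rw [← lim_zero]
    exact hc.tendsto.comp tendsto_one_div_atTop_nhds_zero_nat
  have h2 : ∀ᶠ q : ℕ in atTop, lim (1 / (q : ℝ)) < 1 / (8 * Real.log 2 ^ 2) + η :=
    h1.eventually_lt_const (by linarith)
  obtain ⟨q, hq1, hq2⟩ := (h2.and (eventually_ge_atTop 4)).exists
  exact ⟨q, hq2, hq1⟩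

/-- number of main variables minus one -/
noncomputable def mm (x l : ℝ) : ℕ := ⌈(1 + x) / Real.log 4 * l⌉₊

/-- number of doublings -/
noncomputable def tt (x l : ℝ) : ℕ := ⌈x ^ 3 * l⌉₊

/-- the exponent -/
noncomputable def EE (q : ℕ) (l : ℝ) : ℝ :=
  let x : ℝ := 1 / q
  let m : ℝ := mm x l
  let s : ℝ := q * tt x l
  1 / (2 * (1 - x)) * (m + 1) ^ 2 + 2 * (m + 1) * (s + 1) + 2 * (s + 1) * (2 * m + 1 + 3 * (s + 1))

lemma tendsto_EE (q : ℕ) (hq : 4 ≤ q) :
    Tendsto (fun l : ℝ => EE q l / l ^ 2) atTop (𝓝 (lim (1 / (q : ℝ)))) := by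
  set x : ℝ := 1 / q with hx
  have hq0 : (0 : ℝ) < q := by
    have : 0 < q := by omega
    exact_mod_cast this
  have hx0 : 0 < x := by positivity
  have h4 : 0 < Real.log 4 := Real.log_pos (by norm_num)
  have h1 : Tendsto (fun l : ℝ => (mm x l : ℝ) / l) atTop (𝓝 ((1 + x) / Real.log 4)) :=
    tendsto_nat_ceil_mul_div_atTop (by positivity)
  have h2 : Tendsto (fun l : ℝ => (tt x l : ℝ) / l) atTop (𝓝 (x ^ 3)) :=
    tendsto_nat_ceil_mul_div_atTop (by positivity)
  have h0 : Tendsto (fun l : ℝ => 1 / l) atTop (𝓝 0) := by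
    simpa using tendsto_inv_atTop_zero (𝕜 := ℝ)
  have hm1 : Tendsto (fun l : ℝ => (mm x l : ℝ) / l + 1 / l) atTop (𝓝 ((1 + x) / Real.log 4)) := by
    simpa using h1.add h0
  have hs1 : Tendsto (fun l : ℝ => q * ((tt x l : ℝ) / l) + 1 / l) atTop (𝓝 (x ^ 2)) := by
    have : (q : ℝ) * x ^ 3 + 0 = x ^ 2 := by
      rw [hx]; field_simp; ring
    rw [← this]
    exact (h2.const_mul (q : ℝ)).add h0
  have hm2 : Tendsto (fun l : ℝ => 2 * ((mm x l : ℝ) / l) + 1 / l) atTop
      (𝓝 (2 * ((1 + x) / Real.log 4))) := by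
    simpa using (h1.const_mul 2).add h0
  have hfin := (((hm1.pow 2).const_mul (1 / (2 * (1 - x)))).add
    ((hm1.const_mul 2).mul hs1)).add ((hs1.const_mul 2).mul (hm2.add (hs1.const_mul 3)))
  have heq : (fun l : ℝ => EE q l / l ^ 2) =ᶠ[atTop] fun l : ℝ =>
      1 / (2 * (1 - x)) * ((mm x l : ℝ) / l + 1 / l) ^ 2 +
        2 * ((mm x l : ℝ) / l + 1 / l) * (q * ((tt x l : ℝ) / l) + 1 / l) +
        2 * (q * ((tt x l : ℝ) / l) + 1 / l) *
          (2 * ((mm x l : ℝ) / l) + 1 / l + 3 * (q * ((tt x l : ℝ) / l) + 1 / l)) := by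
    filter_upwards [eventually_gt_atTop (0 : ℝ)] with l hl
    unfold EE
    rw [← hx]
    simp only
    generalize 1 / (2 * (1 - x)) = w
    field_simp
  refine Tendsto.congr' heq.symm ?_
  exact hfin

/-- sufficient largeness conditions hold eventually -/
lemma eventually_conditions (q : ℕ) (hq : 4 ≤ q) :
    ∀ᶠ l : ℝ in atTop, 0 < mm (1 / (q : ℝ)) l ∧
      (2 * (mm (1 / (q : ℝ)) l : ℝ) * ((mm (1 / (q : ℝ)) l : ℝ) + 1)) * Real.exp l ≤
        4 ^ mm (1 / (q : ℝ)) l ∧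
      ((mm (1 / (q : ℝ)) l : ℝ) + 2) * q ≤ 2 ^ tt (1 / (q : ℝ)) l := by
  set x : ℝ := 1 / q with hx
  have hq0 : (0 : ℝ) < q := by
    have : 0 < q := by omega
    exact_mod_cast this
  have hx0 : 0 < x := by positivity
  have h4 : 0 < Real.log 4 := Real.log_pos (by norm_num)
  have h2 : 0 < Real.log 2 := Real.log_pos (by norm_num)
  set c : ℝ := (1 + x) / Real.log 4 with hc
  have hc0 : 0 < c := by positivity
  filter_upwards [eventually_ge_atTop (1 : ℝ), eventually_ge_atTop (12 * (c + 2) ^ 2 / x ^ 3),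
    eventually_ge_atTop (2 * (c + 3) * q / (Real.log 2 * x ^ 3) ^ 2)] with l hl1 hl2 hl3
  have hl0 : 0 < l := by linarith
  have hmm : mm x l = ⌈c * l⌉₊ := rfl
  have htt : tt x l = ⌈x ^ 3 * l⌉₊ := rfl
  have hm0 : 0 < mm x l := by
    rw [hmm, Nat.ceil_pos]
    positivity
  have hm1 : (mm x l : ℝ) ≤ (c + 1) * l := by
    rw [hmm]
    have := (Nat.ceil_lt_add_one (a := c * l) (by positivity)).le
    nlinarith
  have hm2 : (mm x l : ℝ) + 1 ≤ (c + 2) * l := by nlinarith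
  have hm2' : (mm x l : ℝ) + 2 ≤ (c + 3) * l := by nlinarith
  have hm3 : c * l ≤ mm x l := Nat.le_ceil _
  refine ⟨hm0, ?_, ?_⟩
  · -- first condition
    have e1 : (4 : ℝ) ^ mm x l = Real.exp (Real.log 4 * mm x l) := by
      rw [Real.exp_mul, Real.exp_log (by norm_num), Real.rpow_natCast]
    have e2 : Real.exp ((1 + x) * l) ≤ (4 : ℝ) ^ mm x l := by
      rw [e1]
      apply Real.exp_le_exp.2
      calc (1 + x) * l = Real.log 4 * (c * l) := by rw [hc]; field_simp
        _ ≤ _ := mul_le_mul_of_nonneg_left hm3 h4.le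
    refine le_trans ?_ e2
    rw [add_mul, one_mul, Real.exp_add, mul_comm (Real.exp l)]
    apply mul_le_mul_of_nonneg_right _ (Real.exp_pos _).le
    have e3 := Real.pow_div_factorial_le_exp (x * l) (by positivity) 3
    have e4 : ((Nat.factorial 3 : ℕ) : ℝ) = 6 := by norm_num [Nat.factorial]
    rw [e4] at e3
    refine le_trans ?_ e3
    rw [div_le_iff₀ (by positivity)] at hl2
    rw [le_div_iff₀ (by norm_num)]
    calc 2 * (mm x l : ℝ) * ((mm x l : ℝ) + 1) * 6
        ≤ 2 * ((c + 2) * l) * ((c + 2) * l) * 6 := by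
          have hm4 : (mm x l : ℝ) ≤ (c + 2) * l := by nlinarith
          gcongr
      _ = (12 * (c + 2) ^ 2) * l ^ 2 := by ring
      _ ≤ (l * x ^ 3) * l ^ 2 := by
          apply mul_le_mul_of_nonneg_right hl2 (by positivity)
      _ = (x * l) ^ 3 := by ring
  · have e1 : (2 : ℝ) ^ tt x l = Real.exp (Real.log 2 * tt x l) := by
      rw [Real.exp_mul, Real.exp_log (by norm_num), Real.rpow_natCast]
    have e2 : Real.exp (Real.log 2 * (x ^ 3 * l)) ≤ (2 : ℝ) ^ tt x l := by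
      rw [e1]
      apply Real.exp_le_exp.2
      exact mul_le_mul_of_nonneg_left (Nat.le_ceil _) h2.le
    refine le_trans ?_ e2
    have e3 := Real.pow_div_factorial_le_exp (Real.log 2 * (x ^ 3 * l)) (by positivity) 2
    have e4 : ((Nat.factorial 2 : ℕ) : ℝ) = 2 := by norm_num [Nat.factorial]
    rw [e4] at e3
    refine le_trans ?_ e3
    rw [div_le_iff₀ (by positivity)] at hl3
    rw [le_div_iff₀ (by norm_num)]
    calc ((mm x l : ℝ) + 2) * q * 2 ≤ ((c + 3) * l) * q * 2 := by gcongr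
      _ = (2 * (c + 3) * q) * l := by ring
      _ ≤ (l * (Real.log 2 * x ^ 3) ^ 2) * l := mul_le_mul_of_nonneg_right hl3 hl0.le
      _ = (Real.log 2 * (x ^ 3 * l)) ^ 2 := by ring

end Pool.Agent.Helper58.NF
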