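import Mathlib
import Pool.Agent.helper22.Fields

set_option autoImplicit false

namespace Pool.Agent.Helper58.NF

open NumberField Module Filter Topology Pool.Agent.helper22

open scoped Pointwise

section

variable (L : Type*) [Field L] [NumberField L]

open scoped Classical in
lemma norm_toMixed_le (x : mixedEmbedding.euclidean.mixedSpace L) :
    ‖mixedEmbedding.euclidean.toMixed L x‖ ≤ ‖x‖ := by
  rw [Prod.norm_def]
  apply max_le
  · rw [pi_norm_le_iff_of_nonneg (norm_nonneg _)]
    intro w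
    exact (PiLp.norm_apply_le x.fst w).trans (WithLp.norm_fst_le (p := 2) (x := x))
  · rw [pi_norm_le_iff_of_nonneg (norm_nonneg _)]
    intro w
    exact (PiLp.norm_apply_le x.snd w).trans (WithLp.norm_snd_le (p := 2) (x := x))

open scoped Classical in
lemma house_le_norm_mixed (a : L) : house a ≤ ‖mixedEmbedding L a‖ := by
  rw [house_le_iff]
  intro φ
  have h1 : ‖φ a‖ = mixedEmbedding.normAtPlace (InfinitePlace.mk φ) (mixedEmbedding L a) := by
    rw [mixedEmbedding.normAtPlace_apply]; rfl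
  rw [h1, mixedEmbedding.norm_eq_sup'_normAtPlace]
  exact Finset.le_sup' (fun w => mixedEmbedding.normAtPlace w (mixedEmbedding L a)) (Finset.mem_univ _)

/-- the volume of the unit ball in dimension `N` -/
noncomputable def vol (N : ℕ) : ℝ := √Real.pi ^ N / Real.Gamma (N / 2 + 1)

lemma vol_pos (N : ℕ) : 0 < vol N := by
  unfold vol
  have := Real.pi_pos
  have h : 0 < Real.Gamma ((N : ℝ) / 2 + 1) := Real.Gamma_pos_of_pos (by positivity)
  positivity

theorem cnt_lower_uniform {R : ℝ} (hR : 0 < R) :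
    vol (finrank ℚ L) * (R / 3) ^ (finrank ℚ L) / √|(discr L : ℝ)| ≤ (cnt L R : ℝ) := by
  classical
  let E := mixedEmbedding.euclidean.mixedSpace L
  let Λ := mixedEmbedding.euclidean.integerLattice L
  have hfin : finrank ℝ E = finrank ℚ L := mixedEmbedding.euclidean.finrank L
  have hlim := ZLattice.covolume.tendsto_card_div_pow' Λ (s := Metric.closedBall (0 : E) 1)
    Metric.isBounded_closedBall Metric.isClosed_closedBall.measurableSet
    (by rw [frontier_closedBall (0 : E) one_ne_zero]; exact MeasureTheory.Measure.addHaar_sphere _ _ _)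
  have hvol : MeasureTheory.volume.real (Metric.closedBall (0 : E) 1) = vol (finrank ℚ L) := by
    rw [MeasureTheory.measureReal_def, InnerProductSpace.volume_closedBall, hfin]
    simp only [ENNReal.ofReal_one, one_pow, one_mul]
    exact ENNReal.toReal_ofReal (vol_pos (finrank ℚ L)).le
  have hcov : ZLattice.covolume Λ ≤ √|(discr L : ℝ)| := by
    have h1 : ZLattice.covolume Λ = ZLattice.covolume (mixedEmbedding.integerLattice L) :=
      ZLattice.covolume_comap _ _ _ (mixedEmbedding.euclidean.volumePreserving_toMixed L)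
    rw [h1, mixedEmbedding.covolume_integerLattice]
    have h2 : ((2 : ℝ)⁻¹) ^ InfinitePlace.nrComplexPlaces L ≤ 1 := pow_le_one₀ (by norm_num) (by norm_num)
    have h3 : (0 : ℝ) ≤ √|(discr L : ℝ)| := Real.sqrt_nonneg _
    nlinarith
  have hcov0 : 0 < ZLattice.covolume Λ := ZLattice.covolume_pos Λ
  have hcard : ∀ n : ℕ, 0 < n →
      Nat.card ((Metric.closedBall (0 : E) 1) ∩ (n : ℝ)⁻¹ • (Λ : Set E) : Set E) ≤ cnt L n := by
    intro n hn
    have hn0 : (n : ℝ) ≠ 0 := by positivity
    have hex : ∀ x : ((Metric.closedBall (0 : E) 1) ∩ (n : ℝ)⁻¹ • (Λ : Set E) : Set E),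
        ∃ a : 𝓞 L, mixedEmbedding L (a : L) =
          mixedEmbedding.euclidean.toMixed L ((n : ℝ) • (x : E)) := by
      rintro ⟨x, hx1, hx2⟩
      rw [Set.mem_inv_smul_set_iff₀ hn0] at hx2
      have h1 : mixedEmbedding.euclidean.toMixed L ((n : ℝ) • x) ∈ mixedEmbedding.integerLattice L := hx2
      obtain ⟨a, ha⟩ := h1
      exact ⟨a, ha⟩
    choose f hf using hex
    have hmem : ∀ x, f x ∈ {x : 𝓞 L | house (x : L) ≤ (n : ℝ)} := by
      rintro ⟨x, hx1, hx2⟩
      simp only [Set.mem_ofPred_eq]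
      refine (house_le_norm_mixed L _).trans ?_
      rw [hf]
      refine (norm_toMixed_le L _).trans ?_
      rw [norm_smul]
      have : ‖x‖ ≤ 1 := by simpa using hx1
      simp only [Real.norm_natCast]
      have hnn : (0 : ℝ) ≤ n := by positivity
      nlinarith
    have hinj : Function.Injective (fun x => (⟨f x, hmem x⟩ : {x : 𝓞 L | house (x : L) ≤ (n : ℝ)})) := by
      intro x y hxy
      have h1 : f x = f y := congrArg (fun z => z.1) hxy
      have h2 := hf x
      rw [h1, hf y] at h2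
      have h3 := (mixedEmbedding.euclidean.toMixed L).injective h2
      have h4 : (x : E) = (y : E) := by
        have := congrArg (fun z => (n : ℝ)⁻¹ • z) h3
        simpa [smul_smul, hn0] using this.symm
      exact Subtype.ext h4
    have := (finite_house_le L (n : ℝ)).to_subtype
    have h5 := Nat.card_le_card_of_injective _ hinj
    rw [cnt, ← Nat.card_coe_set_eq]
    exact h5
  have hbound : ∀ᶠ n : ℕ in atTop,
      (Nat.card ((Metric.closedBall (0 : E) 1) ∩ (n : ℝ)⁻¹ • (Λ : Set E) : Set E) : ℝ) /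
        n ^ finrank ℝ E ≤ (3 / R) ^ (finrank ℚ L) * cnt L R := by
    filter_upwards [eventually_gt_atTop 0, eventually_ge_atTop ⌈R⌉₊] with n hn hnR
    have hRn : R ≤ n := (Nat.le_ceil R).trans (by exact_mod_cast hnR)
    have hn0 : (0 : ℝ) < n := by positivity
    rw [div_le_iff₀ (by positivity), hfin]
    calc (Nat.card ((Metric.closedBall (0 : E) 1) ∩ (n : ℝ)⁻¹ • (Λ : Set E) : Set E) : ℝ)
        ≤ (cnt L n : ℝ) := by exact_mod_cast hcard n hn
      _ ≤ (1 + 2 * n / R) ^ finrank ℚ L * (cnt L R : ℝ) := cnt_doubling L hR hRn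
      _ ≤ (3 * n / R) ^ finrank ℚ L * (cnt L R : ℝ) := by
          gcongr
          have : 1 ≤ n / R := by rwa [one_le_div hR]
          have e1 : 2 * (n : ℝ) / R = 2 * (n / R) := by ring
          have e2 : 3 * (n : ℝ) / R = 3 * (n / R) := by ring
          rw [e1, e2]
          linarith
      _ = (3 / R) ^ (finrank ℚ L) * cnt L R * n ^ finrank ℚ L := by
          rw [show 3 * (n : ℝ) / R = (3 / R) * n by ring, mul_pow]
          ring
  have hle := le_of_tendsto hlim hbound
  rw [hvol] at hle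
  have hs0 : 0 < √|(discr L : ℝ)| := lt_of_lt_of_le hcov0 hcov
  have h1 : vol (finrank ℚ L) / √|(discr L : ℝ)| ≤ (3 / R) ^ (finrank ℚ L) * cnt L R := by
    refine le_trans ?_ hle
    exact div_le_div_of_nonneg_left (vol_pos _).le hcov0 hcov
  calc vol (finrank ℚ L) * (R / 3) ^ (finrank ℚ L) / √|(discr L : ℝ)|
      = (R / 3) ^ (finrank ℚ L) * (vol (finrank ℚ L) / √|(discr L : ℝ)|) := by ring
    _ ≤ (R / 3) ^ (finrank ℚ L) * ((3 / R) ^ (finrank ℚ L) * cnt L R) := by gcongr
    _ = cnt L R := by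
        rw [← mul_assoc, ← mul_pow]
        have : R / 3 * (3 / R) = 1 := by field_simp
        rw [this, one_pow, one_mul]

end

/-- the constant in `small_span` -/
noncomputable def CM (N : ℕ) : ℝ := 2 * 15 ^ N / vol N + 1

lemma CM_one_le (N : ℕ) : 1 ≤ CM N := by
  unfold CM
  have := vol_pos N
  have : 0 ≤ 2 * (15 : ℝ) ^ N / vol N := by positivity
  linarith

theorem small_span (K L : Type*) [Field K] [NumberField K] [Field L] [NumberField L] [Algebra K L]
    (k : ℕ) (hk : k < finrank K L) {X : ℝ} (hX : 1 ≤ X) (hD : (|discr L| : ℝ) ≤ X) :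
    k < finrank K (Submodule.span K {x : L | IsIntegral ℤ x ∧
      house x ≤ CM (finrank ℚ L) * X ^ (1 / (2 * (finrank ℚ K : ℝ) * ((finrank K L : ℝ) - k)))}) := by
  set N := finrank ℚ L with hN
  set δ := finrank ℚ K with hδ
  set n := finrank K L with hn
  set R : ℝ := CM N * X ^ (1 / (2 * (δ : ℝ) * ((n : ℝ) - k))) with hR
  have hNn : N = δ * n := by rw [hN, hδ, hn, Module.finrank_mul_finrank]
  have hδ0 : 0 < δ := Module.finrank_pos
  have hkn : (0 : ℝ) < (n : ℝ) - k := by
    have : (k : ℝ) < n := by exact_mod_cast hk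
    linarith
  have hδr : (0 : ℝ) < δ := by exact_mod_cast hδ0
  have hX0 : 0 < X := by linarith
  have hXp : 1 ≤ X ^ (1 / (2 * (δ : ℝ) * ((n : ℝ) - k))) :=
    Real.one_le_rpow hX (by positivity)
  have hC := CM_one_le N
  have hR1 : 1 ≤ R := by
    rw [hR]
    exact one_le_mul_of_one_le_of_one_le hC hXp
  by_contra hcon
  push Not at hcon
  set V := Submodule.span K {x : L | IsIntegral ℤ x ∧ house x ≤ R} with hV
  have hVQ : finrank ℚ (V.restrictScalars ℚ) ≤ δ * k := by
    have : finrank ℚ (V.restrictScalars ℚ) = δ * finrank K V := by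
      rw [hδ, Module.finrank_mul_finrank ℚ K V]
      rfl
    rw [this]
    exact Nat.mul_le_mul_left _ hcon
  have h1 := cnt_doubling_sub L (V.restrictScalars ℚ) (R := R) (t := 1 / 2) (by norm_num)
    (by linarith) (fun x hx => Submodule.subset_span ⟨x.2, hx⟩)
  rw [cnt_half, Nat.cast_one, mul_one] at h1
  have h2 := cnt_lower_uniform L (R := R) (by linarith)
  have h3 : (1 + 2 * R / (1 / 2)) ^ finrank ℚ (V.restrictScalars ℚ) ≤ (5 * R) ^ (δ * k) := by
    calc (1 + 2 * R / (1 / 2)) ^ finrank ℚ (V.restrictScalars ℚ)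
        ≤ (5 * R) ^ finrank ℚ (V.restrictScalars ℚ) := by
          gcongr
          have : 2 * R / (1 / 2) = 4 * R := by ring
          rw [this]; linarith
      _ ≤ (5 * R) ^ (δ * k) := pow_le_pow_right₀ (by linarith) hVQ
  have hvol := vol_pos N
  have hD1 : (1 : ℝ) ≤ |(discr L : ℝ)| := by
    have h5 : (1 : ℤ) ≤ |discr L| := Int.one_le_abs (NumberField.discr_ne_zero L)
    have h6 : ((1 : ℤ) : ℝ) ≤ ((|discr L| : ℤ) : ℝ) := by exact_mod_cast h5
    simpa using h6
  have hD' : |(discr L : ℝ)| ≤ X := by simpa using hD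
  have hsq : 0 < √|(discr L : ℝ)| := Real.sqrt_pos.2 (by linarith)
  have h4 : vol N * (R / 3) ^ N ≤ (5 * R) ^ (δ * k) * √X := by
    have h5 : vol N * (R / 3) ^ N / √|(discr L : ℝ)| ≤ (5 * R) ^ (δ * k) := h2.trans (h1.trans h3)
    rw [div_le_iff₀ hsq] at h5
    refine h5.trans ?_
    gcongr
  have hsplit : N = δ * k + δ * (n - k) := by
    rw [hNn, ← Nat.mul_add]
    congr 1
    omega
  have h5 : vol N * R ^ (δ * (n - k)) ≤ 15 ^ N * √X := by
    have hRk : 0 < R ^ (δ * k) := by positivity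
    have h6 : vol N * R ^ N ≤ 3 ^ N * ((5 * R) ^ (δ * k) * √X) := by
      have : vol N * R ^ N = 3 ^ N * (vol N * (R / 3) ^ N) := by
        rw [div_pow]; field_simp
      rw [this]
      gcongr
    have h7 : (5 : ℝ) ^ (δ * k) ≤ 5 ^ N := pow_le_pow_right₀ (by norm_num) (by omega)
    have h8 : R ^ N = R ^ (δ * k) * R ^ (δ * (n - k)) := by
      rw [← pow_add, ← hsplit]
    rw [h8, mul_pow 5 R] at h6
    have h15 : (15 : ℝ) ^ N = 3 ^ N * 5 ^ N := by rw [← mul_pow]; norm_num
    have h9 : R ^ (δ * k) * (vol N * R ^ (δ * (n - k))) ≤ R ^ (δ * k) * (15 ^ N * √X) := by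
      calc R ^ (δ * k) * (vol N * R ^ (δ * (n - k))) = vol N * (R ^ (δ * k) * R ^ (δ * (n - k))) := by ring
        _ ≤ 3 ^ N * (5 ^ (δ * k) * R ^ (δ * k) * √X) := h6
        _ ≤ 3 ^ N * (5 ^ N * R ^ (δ * k) * √X) := by gcongr
        _ = R ^ (δ * k) * (15 ^ N * √X) := by
          rw [h15]; ring
    exact le_of_mul_le_mul_left h9 hRk
  have h6 : R ^ (δ * (n - k)) = CM N ^ (δ * (n - k)) * √X := by
    rw [hR, mul_pow, ← Real.rpow_natCast (X ^ _), ← Real.rpow_mul hX0.le, Real.sqrt_eq_rpow]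
    congr 2
    push_cast [Nat.cast_sub hk.le]
    field_simp
  have h7 : CM N ≤ CM N ^ (δ * (n - k)) := by
    apply le_self_pow₀ hC
    have : 0 < n - k := by omega
    positivity
  have hsX : 0 < √X := Real.sqrt_pos.2 hX0
  have h8 : vol N * (CM N * √X) ≤ 15 ^ N * √X := by
    refine le_trans ?_ h5
    rw [h6]
    gcongr
  have h9 : vol N * CM N ≤ 15 ^ N := by
    have : (vol N * CM N) * √X ≤ 15 ^ N * √X := by linarith
    exact le_of_mul_le_mul_right this hsX
  have h10 : vol N * CM N = 2 * 15 ^ N + vol N := by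
    unfold CM
    field_simp
  have : (0 : ℝ) < 15 ^ N := by positivity
  linarith

end Pool.Agent.Helper58.NF
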