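import Mathlib
import Pool.Agent.Helper58.NF.Mink

set_option autoImplicit false

namespace Pool.Agent.Helper58.NF

open NumberField Module Pool.Agent.helper22

open scoped Pointwise

lemma exists_indep {K V : Type*} [Field K] [AddCommGroup V] [Module K V] [FiniteDimensional K V]
    (S : Set V) (k : ℕ) (hk : k ≤ finrank K (Submodule.span K S)) :
    ∃ w : Fin k → V, (∀ i, w i ∈ S) ∧ LinearIndependent K w := by
  obtain ⟨b, hbS, hspan, hli⟩ := exists_linearIndependent K S
  have hfin : b.Finite := hli.setFinite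
  have := hfin.fintype
  have hcard : finrank K (Submodule.span K b) = Fintype.card b := by
    have := finrank_span_eq_card hli
    rwa [Subtype.range_coe] at this
  rw [← hspan, hcard] at hk
  obtain ⟨e⟩ : Nonempty (Fin k ↪ b) := by
    apply Function.Embedding.nonempty_of_card_le
    simpa using hk
  exact ⟨fun i => (e i : V), fun i => hbS (e i).2, hli.comp e e.injective⟩

lemma mul_self_eq_top {K L : Type*} [Field K] [Field L] [Algebra K L] [FiniteDimensional K L]
    [Algebra.IsSeparable K L] (V : Submodule K L) (h : finrank K L < 2 * finrank K V) :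
    V * V = ⊤ := by
  by_contra hne
  have hB := traceForm_nondegenerate K L
  have h1 : finrank K ((Algebra.traceForm K L).orthogonal (V * V)) =
      finrank K L - finrank K (V * V : Submodule K L) :=
    LinearMap.BilinForm.finrank_orthogonal hB _
  have h2 : finrank K (V * V : Submodule K L) < finrank K L := Submodule.finrank_lt hne
  have h3 : (Algebra.traceForm K L).orthogonal (V * V) ≠ ⊥ := by
    intro h0
    rw [h0, finrank_bot] at h1
    omega
  obtain ⟨c, hc, hc0⟩ := Submodule.exists_mem_ne_zero_of_ne_bot h3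
  have h4 : V.map (LinearMap.mulLeft K c) ≤ (Algebra.traceForm K L).orthogonal V := by
    rintro _ ⟨v, hv, rfl⟩
    rw [LinearMap.BilinForm.mem_orthogonal_iff]
    intro v' hv'
    have h5 := (LinearMap.BilinForm.mem_orthogonal_iff.1 hc) (v' * v) (Submodule.mul_mem_mul hv' hv)
    rw [Algebra.traceForm_apply] at h5 ⊢
    rw [LinearMap.mulLeft_apply]
    rw [← h5]
    congr 1
    ring
  have h5 : finrank K (V.map (LinearMap.mulLeft K c)) = finrank K V := by
    have hinj : Function.Injective (LinearMap.mulLeft K c) := fun x y hxy =>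
      mul_left_cancel₀ hc0 hxy
    exact (LinearEquiv.finrank_eq (Submodule.equivMapOfInjective _ hinj V)).symm
  have h6 := Submodule.finrank_mono h4
  rw [h5, LinearMap.BilinForm.finrank_orthogonal hB] at h6
  have h7 : 0 < finrank K L := Module.finrank_pos
  omega

/-- a `K`-basis of `L` made of algebraic integers of house at most `CM^2 X^(2/(δ n))` -/
theorem small_basis (K L : Type*) [Field K] [NumberField K] [Field L] [NumberField L] [Algebra K L]
    {X : ℝ} (hX : 1 ≤ X) (hD : (|discr L| : ℝ) ≤ X) :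
    ∃ u : Fin (finrank K L) → L, LinearIndependent K u ∧ ∀ i, IsIntegral ℤ (u i) ∧
      house (u i) ≤ CM (finrank ℚ L) ^ 2 * X ^ (2 / ((finrank ℚ K : ℝ) * (finrank K L : ℝ))) := by
  set n := finrank K L with hn
  have hn0 : 0 < n := Module.finrank_pos
  have hδ0 : 0 < finrank ℚ K := Module.finrank_pos
  set R : ℝ := CM (finrank ℚ L) * X ^ (1 / (2 * (finrank ℚ K : ℝ) * ((n : ℝ) - (n / 2 : ℕ)))) with hR
  set S : Set L := {x : L | IsIntegral ℤ x ∧ house x ≤ R} with hS
  have h1 : n / 2 < finrank K (Submodule.span K S) :=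
    small_span K L (n / 2) (by omega) hX hD
  have h2 : Submodule.span K S * Submodule.span K S = ⊤ := mul_self_eq_top _ (by omega)
  rw [Submodule.span_mul_span] at h2
  obtain ⟨u, hu, hli⟩ := exists_indep (S * S) n (by rw [h2, finrank_top])
  refine ⟨u, hli, fun i => ?_⟩
  obtain ⟨x, hx, y, hy, hxy⟩ := Set.mem_mul.1 (hu i)
  rw [← hxy]
  refine ⟨hx.1.mul hy.1, (house_mul_le x y).trans ?_⟩
  have hX0 : 0 < X := by linarith
  have hR0 : 0 ≤ R := (house_nonneg x).trans hx.2
  calc house x * house y ≤ R * R := mul_le_mul hx.2 hy.2 (house_nonneg y) hR0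
    _ = CM (finrank ℚ L) ^ 2 *
        X ^ (1 / (2 * (finrank ℚ K : ℝ) * ((n : ℝ) - (n / 2 : ℕ))) +
          1 / (2 * (finrank ℚ K : ℝ) * ((n : ℝ) - (n / 2 : ℕ)))) := by
        rw [hR, Real.rpow_add hX0]; ring
    _ ≤ _ := by
        have hC := CM_one_le (finrank ℚ L)
        gcongr
        · have e1 : ((n / 2 : ℕ) : ℝ) ≤ n / 2 := Nat.cast_div_le
          have e2 : (0 : ℝ) < n := by exact_mod_cast hn0
          have e3 : (0 : ℝ) < finrank ℚ K := by exact_mod_cast hδ0
          have e4 : (n : ℝ) / 2 ≤ (n : ℝ) - (n / 2 : ℕ) := by linarith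
          have e5 : 1 / (2 * (finrank ℚ K : ℝ) * ((n : ℝ) - (n / 2 : ℕ))) ≤
              1 / ((finrank ℚ K : ℝ) * n) := by
            apply one_div_le_one_div_of_le (by positivity)
            nlinarith
          calc _ ≤ 1 / ((finrank ℚ K : ℝ) * n) + 1 / ((finrank ℚ K : ℝ) * n) := add_le_add e5 e5
            _ = 2 / ((finrank ℚ K : ℝ) * n) := by ring

end Pool.Agent.Helper58.NF
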