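import Mathlib

set_option autoImplicit false

namespace Pool.Agent.Helper58.NF

open Module

lemma totalDegree_det_le {k σ J : Type*} [CommRing k] [Fintype J] [DecidableEq J] (D : ℕ)
    (M : Matrix J J (MvPolynomial σ k)) (hM : ∀ i j, (M i j).totalDegree ≤ D) :
    M.det.totalDegree ≤ D * Fintype.card J := by
  rw [Matrix.det_apply]
  refine (MvPolynomial.totalDegree_finsetSum _ _).trans ?_
  apply Finset.sup_le
  intro s _
  have h1 : ((Equiv.Perm.sign s) • ∏ i, M (s i) i).totalDegree ≤ (∏ i, M (s i) i).totalDegree := by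
    rcases Int.units_eq_one_or (Equiv.Perm.sign s) with h | h
    · rw [h, one_smul]
    · rw [h, Units.neg_smul, one_smul, MvPolynomial.totalDegree_neg]
  refine h1.trans ((MvPolynomial.totalDegree_finsetProd _ _).trans ?_)
  calc ∑ i, (M (s i) i).totalDegree ≤ ∑ _i : J, D := Finset.sum_le_sum (fun i _ => hM _ _)
    _ = D * Fintype.card J := by simp [mul_comm]

lemma exists_nat_eval_ne_zero {k σ : Type*} [Field k] [CharZero k] [Finite σ]
    (P : MvPolynomial σ k) (hP : P ≠ 0) :
    ∃ c : σ → ℕ, (∀ l, c l ≤ P.totalDegree) ∧ MvPolynomial.eval (fun l => (c l : k)) P ≠ 0 := by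
  classical
  by_contra hcon
  push Not at hcon
  apply hP
  let S : σ → Finset k := fun _ => (Finset.range (P.totalDegree + 1)).image (fun n : ℕ => (n : k))
  have hcard : ∀ i, (S i).card = P.totalDegree + 1 := by
    intro i
    rw [Finset.card_image_of_injective _ Nat.cast_injective, Finset.card_range]
  apply MvPolynomial.eq_zero_of_eval_zero_at_prod_finset P S
  · intro i
    rw [hcard i]
    exact Nat.lt_succ_of_le (MvPolynomial.degreeOf_le_totalDegree P i)
  · intro x hx
    have h1 : ∀ i, ∃ n : ℕ, n ≤ P.totalDegree ∧ (n : k) = x i := by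
      intro i
      obtain ⟨n, hn, hnx⟩ := Finset.mem_image.1 (hx i)
      exact ⟨n, Nat.lt_succ_iff.1 (Finset.mem_range.1 hn), hnx⟩
    choose c hc hcx using h1
    have h2 := hcon c hc
    have h3 : (fun l => (c l : k)) = x := funext hcx
    rwa [h3] at h2

/-- Linear independence at one parameter value propagates to small integral parameter values. -/
lemma gen {k V σ J : Type*} [Field k] [CharZero k] [AddCommGroup V] [Module k V] [Finite σ]
    [Fintype J] (D : ℕ) (v : J → (σ → k) → V)
    (hv : ∀ (j : J) (f : V →ₗ[k] k), ∃ p : MvPolynomial σ k, p.totalDegree ≤ D ∧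
      ∀ c, MvPolynomial.eval c p = f (v j c))
    (c0 : σ → k) (h0 : LinearIndependent k (fun j => v j c0))
    (q : MvPolynomial σ k) (hq : q ≠ 0) :
    ∃ c : σ → ℕ, (∀ l, c l ≤ D * Fintype.card J + q.totalDegree) ∧
      LinearIndependent k (fun j => v j (fun l => (c l : k))) ∧
      MvPolynomial.eval (fun l => (c l : k)) q ≠ 0 := by
  classical
  let Φ : (J → k) →ₗ[k] V := Fintype.linearCombination k (fun j => v j c0)
  have hΦ : LinearMap.ker Φ = ⊥ := by
    rw [LinearMap.ker_eq_bot]
    exact linearIndependent_iff_injective_fintypeLinearCombination.1 h0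
  obtain ⟨f, hf⟩ := LinearMap.exists_leftInverse_of_injective Φ hΦ
  have hfv : ∀ j, f (v j c0) = Pi.single j 1 := by
    intro j
    have h1 : Φ (Pi.single j 1) = v j c0 := by simp [Φ]
    rw [← h1]
    have := LinearMap.congr_fun hf (Pi.single j 1)
    simpa using this
  choose p hpdeg hpeval using fun i j => hv j (LinearMap.proj i ∘ₗ f)
  let M : Matrix J J (MvPolynomial σ k) := Matrix.of p
  have hM : ∀ c, MvPolynomial.eval c M.det = (Matrix.of fun i j => f (v j c) i).det := by
    intro c
    have h1 := RingHom.map_det (MvPolynomial.eval c) M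
    rw [h1]
    congr 1
    ext i j
    simp only [RingHom.mapMatrix_apply, Matrix.map_apply, M, Matrix.of_apply, hpeval]
    rfl
  have hP0 : MvPolynomial.eval c0 M.det = 1 := by
    rw [hM c0]
    have : (Matrix.of fun i j => f (v j c0) i) = (1 : Matrix J J k) := by
      ext i j
      rw [Matrix.of_apply, hfv, Matrix.one_apply, Pi.single_apply]
    rw [this, Matrix.det_one]
  have hP : M.det ≠ 0 := by
    intro h
    rw [h, map_zero] at hP0
    exact zero_ne_one hP0
  obtain ⟨c, hc1, hc2⟩ := exists_nat_eval_ne_zero (M.det * q) (mul_ne_zero hP hq)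
  rw [map_mul] at hc2
  refine ⟨c, ?_, ?_, right_ne_zero_of_mul hc2⟩
  · intro l
    refine (hc1 l).trans ((MvPolynomial.totalDegree_mul _ _).trans ?_)
    have := totalDegree_det_le D M (fun i j => hpdeg i j)
    omega
  · have h1 := left_ne_zero_of_mul hc2
    rw [hM] at h1
    have h2 : LinearIndependent k (fun j => f (v j (fun l => (c l : k)))) := by
      have h3 := Matrix.linearIndependent_cols_of_det_ne_zero h1
      exact h3
    exact LinearIndependent.of_comp f h2

end Pool.Agent.Helper58.NF
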