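import Mathlib
import Pool.Agent.Helper58.NF.Gen

set_option autoImplicit false

namespace Pool.Agent.Helper58.NF

open Module

section

variable {K L : Type*} [Field K] [CharZero K] [Field L] [Algebra K L] [FiniteDimensional K L]
  {ι : Type*} [Fintype ι]

/-- scalar multiplication by `y` as a `K`-linear map -/
def sm (K : Type*) {L : Type*} [Field K] [Field L] [Algebra K L] {ι : Type*} (y : L) :
    (ι → L) →ₗ[K] (ι → L) := (LinearMap.lsmul L (ι → L) y).restrictScalars K

omit [CharZero K] [FiniteDimensional K L] [Fintype ι] in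
lemma sm_apply (y : L) (v : ι → L) : sm K y v = y • v := rfl

/-- `G + y G` -/
def ext1 (G : Submodule K (ι → L)) (y : L) : Submodule K (ι → L) := G ⊔ G.map (sm K y)

omit [CharZero K] [FiniteDimensional K L] [Fintype ι] in
lemma le_ext1 (G : Submodule K (ι → L)) (y : L) : G ≤ ext1 G y := le_sup_left

omit [CharZero K] [FiniteDimensional K L] [Fintype ι] in
lemma smul_mem_ext1 {G : Submodule K (ι → L)} (y : L) {v : ι → L} (hv : v ∈ G) :
    y • v ∈ ext1 G y := (le_sup_right : _ ≤ ext1 G y) ⟨v, hv, rfl⟩

/-- every surjective `L`-linear image of `G` is large -/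
def Good (q : ℕ) (G : Submodule K (ι → L)) : Prop :=
  ∀ (t : ℕ) (ψ : (ι → L) →ₗ[L] (Fin t → L)), Function.Surjective ψ →
    t * q ≤ finrank K (G.map (ψ.restrictScalars K))

omit [CharZero K] in
lemma Good.mono {q : ℕ} {G G' : Submodule K (ι → L)} (h : Good q G) (hle : G ≤ G') : Good q G' := by
  intro t ψ hψ
  exact (h t ψ hψ).trans (Submodule.finrank_mono (Submodule.map_mono hle))

/-- the generating family of `G + y G` -/
def fam (G : Submodule K (ι → L)) (y : L) : G ⊕ G → (ι → L) := fun g =>
  match g with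
  | Sum.inl g => g
  | Sum.inr g => y • (g : ι → L)

omit [CharZero K] [FiniteDimensional K L] [Fintype ι] in
lemma fam_mem (G : Submodule K (ι → L)) (y : L) (x : G ⊕ G) : fam G y x ∈ ext1 G y := by
  rcases x with g | g
  · exact le_ext1 G y g.2
  · exact smul_mem_ext1 y g.2

omit [CharZero K] [FiniteDimensional K L] [Fintype ι] in
lemma span_fam (G : Submodule K (ι → L)) (y : L) : Submodule.span K (Set.range (fam G y)) = ext1 G y := by
  apply le_antisymm
  · rw [Submodule.span_le]
    rintro _ ⟨x, rfl⟩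
    exact fam_mem G y x
  · apply sup_le
    · intro g hg
      exact Submodule.subset_span ⟨Sum.inl ⟨g, hg⟩, rfl⟩
    · rintro _ ⟨g, hg, rfl⟩
      exact Submodule.subset_span ⟨Sum.inr ⟨g, hg⟩, rfl⟩

omit [CharZero K] in
lemma exists_fam (G : Submodule K (ι → L)) (y : L) :
    ∃ (J : Type) (_ : Fintype J) (a : J → G ⊕ G), LinearIndependent K (fun j => fam G y (a j)) ∧
      Submodule.span K (Set.range (fun j => fam G y (a j))) = ext1 G y ∧
      Fintype.card J = finrank K (ext1 G y) := by
  obtain ⟨κ, a, _, hspan, hli⟩ := exists_linearIndependent' K (fam G y)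
  rw [span_fam] at hspan
  have hfin : Finite κ := hli.finite
  have hκ := Fintype.ofFinite κ
  let e := Fintype.equivFin κ
  refine ⟨Fin (Fintype.card κ), inferInstance, fun j => a (e.symm j), ?_, ?_, ?_⟩
  · exact hli.comp e.symm e.symm.injective
  · rw [← hspan]
    congr 1
    ext v
    constructor
    · rintro ⟨j, rfl⟩; exact ⟨e.symm j, rfl⟩
    · rintro ⟨j, rfl⟩; exact ⟨e j, by simp⟩
  · rw [Fintype.card_fin, ← hspan]
    exact (finrank_span_eq_card hli).symm

/-- the key lemma: small multipliers are stable under all of `L` -/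
lemma smul_mem_of_max (G : Submodule K (ι → L)) (y : L)
    (hmax : ∀ y', finrank K (ext1 G y') ≤ finrank K (ext1 G y)) {b : ι → L} (hb : b ∈ G)
    (hyb : y • b ∈ G) (w : L) : w • b ∈ ext1 G y := by
  classical
  by_contra hw
  obtain ⟨J, hJ, a, hli, hspan, hcard⟩ := exists_fam G y
  let v : Option J → (Unit → K) → (ι → L) := fun j c =>
    match j with
    | none => w • b
    | some j => fam G (y + c () • w) (a j)
  have hv : ∀ (j : Option J) (f : (ι → L) →ₗ[K] K), ∃ p : MvPolynomial Unit K, p.totalDegree ≤ 1 ∧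
      ∀ c, MvPolynomial.eval c p = f (v j c) := by
    intro j f
    rcases j with _ | j
    · exact ⟨MvPolynomial.C (f (w • b)), by simp, fun c => by simp [v]⟩
    · rcases haj : a j with g | g
      · exact ⟨MvPolynomial.C (f g), by simp, fun c => by simp [v, haj, fam]⟩
      · refine ⟨MvPolynomial.C (f (y • (g : ι → L))) +
            MvPolynomial.C (f (w • (g : ι → L))) * MvPolynomial.X (), ?_, fun c => ?_⟩
        · refine (MvPolynomial.totalDegree_add _ _).trans ?_
          apply max_le
          · simp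
          · refine (MvPolynomial.totalDegree_mul _ _).trans ?_
            simp
        · simp only [v, haj, fam, add_smul, map_add, MvPolynomial.eval_C, map_mul,
            MvPolynomial.eval_X, smul_assoc, map_smul, smul_eq_mul]
          ring
  have h0 : LinearIndependent K (fun j => v j (fun _ => 0)) := by
    have e : ((fun j => v j (fun _ => 0)) ∘ (fun j : J => (some j : Option J))) =
        fun j => fam G y (a j) := by
      funext j
      simp [v]
    rw [linearIndependent_option]
    refine ⟨?_, ?_⟩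
    · rw [e]; exact hli
    · rw [e, hspan]; exact hw
  obtain ⟨c, _, hc2, hc3⟩ := gen 1 v hv (fun _ => 0) h0 (MvPolynomial.X ()) (MvPolynomial.X_ne_zero _)
  rw [MvPolynomial.eval_X] at hc3
  have hmem : ∀ j, v j (fun l => (c l : K)) ∈ ext1 G (y + (c () : K) • w) := by
    intro j
    rcases j with _ | j
    · have h1 : w • b = ((c () : K))⁻¹ • ((y + (c () : K) • w) • b - y • b) := by
        rw [add_smul, add_sub_cancel_left, smul_assoc, smul_smul, inv_mul_cancel₀ hc3, one_smul]
      show w • b ∈ _
      rw [h1]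
      exact Submodule.smul_mem _ _ (Submodule.sub_mem _ (smul_mem_ext1 _ hb) (le_ext1 _ _ hyb))
    · exact fam_mem _ _ _
  have h2 : Fintype.card (Option J) ≤ finrank K (ext1 G (y + (c () : K) • w)) := by
    have h3 : LinearIndependent K (fun j => (⟨_, hmem j⟩ : ext1 G (y + (c () : K) • w))) :=
      LinearIndependent.of_comp (ext1 G (y + (c () : K) • w)).subtype hc2
    exact h3.fintype_card_le_finrank
  have h4 := hmax (y + (c () : K) • w)
  rw [Fintype.card_option, hcard] at h2
  omega

/-- a good multiplier with small coordinates exists -/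
lemma exists_max {n : ℕ} (u : Fin n → L) (hu : Submodule.span K (Set.range u) = ⊤)
    (G : Submodule K (ι → L)) :
    ∃ c : Fin n → ℕ, (∀ l, c l ≤ finrank K (ι → L)) ∧
      ∀ y', finrank K (ext1 G y') ≤ finrank K (ext1 G (∑ l, (c l : K) • u l)) := by
  classical
  obtain ⟨y, hy⟩ : ∃ y, ∀ y', finrank K (ext1 G y') ≤ finrank K (ext1 G y) := by
    have hbdd : BddAbove (Set.range (fun y => finrank K (ext1 G y))) := by
      refine ⟨finrank K (ι → L), ?_⟩
      rintro _ ⟨y, rfl⟩
      exact Submodule.finrank_le _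
    obtain ⟨y, hy⟩ := Nat.sSup_mem (Set.range_nonempty (fun y => finrank K (ext1 G y))) hbdd
    refine ⟨y, fun y' => ?_⟩
    have h1 : finrank K (ext1 G y) = sSup (Set.range (fun y => finrank K (ext1 G y))) := hy
    rw [h1]
    exact le_csSup hbdd ⟨y', rfl⟩
  obtain ⟨J, hJ, a, hli, hspan, hcard⟩ := exists_fam G y
  have hymem : y ∈ Submodule.span K (Set.range u) := by rw [hu]; exact Submodule.mem_top
  obtain ⟨κ, hκ⟩ := (Submodule.mem_span_range_iff_exists_fun K).1 hymem
  let v : J → (Fin n → K) → (ι → L) := fun j c => fam G (∑ l, c l • u l) (a j)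
  have hv : ∀ (j : J) (f : (ι → L) →ₗ[K] K), ∃ p : MvPolynomial (Fin n) K, p.totalDegree ≤ 1 ∧
      ∀ c, MvPolynomial.eval c p = f (v j c) := by
    intro j f
    rcases haj : a j with g | g
    · exact ⟨MvPolynomial.C (f g), by simp, fun c => by simp [v, haj, fam]⟩
    · refine ⟨∑ l, MvPolynomial.C (f (u l • (g : ι → L))) * MvPolynomial.X l, ?_, fun c => ?_⟩
      · refine (MvPolynomial.totalDegree_finsetSum _ _).trans ?_
        apply Finset.sup_le
        intro l _
        refine (MvPolynomial.totalDegree_mul _ _).trans ?_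
        simp
      · simp only [v, haj, fam, Finset.sum_smul, map_sum, map_mul, MvPolynomial.eval_C,
          MvPolynomial.eval_X, smul_assoc, map_smul, smul_eq_mul]
        apply Finset.sum_congr rfl
        intro l _
        ring
  have h0 : LinearIndependent K (fun j => v j κ) := by
    have : (fun j => v j κ) = fun j => fam G y (a j) := by
      funext j
      simp only [v, hκ]
    rw [this]; exact hli
  obtain ⟨c, hc1, hc2, _⟩ := gen 1 v hv κ h0 1 one_ne_zero
  have hJle : Fintype.card J ≤ finrank K (ι → L) := by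
    rw [hcard]; exact Submodule.finrank_le _
  refine ⟨c, fun l => ?_, fun y' => ?_⟩
  · have := hc1 l
    rw [MvPolynomial.totalDegree_one] at this
    omega
  · refine (hy y').trans ?_
    rw [← hcard]
    have h3 : LinearIndependent K (fun j => (⟨_, fam_mem G (∑ l, (c l : K) • u l) (a j)⟩ :
        ext1 G (∑ l, (c l : K) • u l))) :=
      LinearIndependent.of_comp (ext1 G (∑ l, (c l : K) • u l)).subtype hc2
    exact h3.fintype_card_le_finrank

omit [CharZero K] in
lemma finrank_map_add (V W : Type*) [AddCommGroup V] [Module K V] [AddCommGroup W] [Module K W]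
    [FiniteDimensional K V] (f : V →ₗ[K] W) (E : Submodule K V) :
    finrank K (E.map f) + finrank K (E ⊓ LinearMap.ker f : Submodule K V) = finrank K E := by
  have h1 := LinearMap.finrank_range_add_finrank_ker (f.domRestrict E)
  have h2 : LinearMap.range (f.domRestrict E) = E.map f := by
    ext w
    constructor
    · rintro ⟨x, rfl⟩; exact ⟨x, x.2, rfl⟩
    · rintro ⟨x, hx, rfl⟩; exact ⟨⟨x, hx⟩, rfl⟩
  have h3 : (LinearMap.ker (f.domRestrict E)).map E.subtype = E ⊓ LinearMap.ker f := by
    ext w
    constructor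
    · rintro ⟨x, hx, rfl⟩; exact ⟨x.2, hx⟩
    · rintro ⟨hx1, hx2⟩; exact ⟨⟨w, hx1⟩, hx2, rfl⟩
  rw [h2] at h1
  rw [← h3, Submodule.finrank_map_subtype_eq]
  exact h1

/-- the growth lemma -/
theorem growth {q : ℕ} (G : Submodule K (ι → L)) (hG : Good q G) (y : L)
    (hmax : ∀ y', finrank K (ext1 G y') ≤ finrank K (ext1 G y)) :
    ∃ t : ℕ, finrank K (ι → L) ≤ finrank K (ext1 G y) + finrank K L * t ∧
      finrank K G + t * q ≤ finrank K (ext1 G y) := by
  set Gy : Submodule K (ι → L) := G ⊓ G.comap (sm K y) with hGy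
  set H : Submodule L (ι → L) := Submodule.span L (Gy : Set (ι → L)) with hH
  -- H is contained in ext1
  have hHall : ∀ x ∈ H, ∀ w : L, w • x ∈ ext1 G y := by
    intro x hx
    rw [hH] at hx
    induction hx using Submodule.span_induction with
    | mem b hb => exact fun w => smul_mem_of_max G y hmax hb.1 hb.2 w
    | zero => intro w; rw [smul_zero]; exact Submodule.zero_mem _
    | add a b ha hb iha ihb =>
      intro w; rw [smul_add]; exact Submodule.add_mem _ (iha w) (ihb w)
    | smul w' b hb ih => intro w; rw [smul_smul]; exact ih (w * w')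
  have hHle : H.restrictScalars K ≤ ext1 G y := by
    intro x hx
    have := hHall x hx 1
    rwa [one_smul] at this
  -- dimension of Gy
  have hdim : finrank K (ext1 G y) + finrank K Gy = 2 * finrank K G := by
    have e1 := finrank_map_add (ι → L) ((ι → L) ⧸ G) G.mkQ (ext1 G y)
    have e2 := finrank_map_add (ι → L) ((ι → L) ⧸ G) (G.mkQ ∘ₗ sm K y) G
    have e3 : ext1 G y ⊓ LinearMap.ker G.mkQ = G := by
      rw [Submodule.ker_mkQ]
      exact inf_eq_right.2 (le_ext1 G y)
    have e4 : G ⊓ LinearMap.ker (G.mkQ ∘ₗ sm K y) = Gy := by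
      rw [LinearMap.ker_comp, Submodule.ker_mkQ]
    have e5 : (ext1 G y).map G.mkQ = G.map (G.mkQ ∘ₗ sm K y) := by
      rw [ext1, Submodule.map_sup, Submodule.map_comp]
      have : G.map G.mkQ = ⊥ := by
        rw [eq_bot_iff]
        rintro _ ⟨x, hx, rfl⟩
        rw [Submodule.mem_bot, Submodule.mkQ_apply, Submodule.Quotient.mk_eq_zero]
        exact hx
      rw [this, bot_sup_eq]
    rw [e3, e5] at e1
    rw [e4] at e2
    omega
  -- the quotient by H
  let t := finrank L ((ι → L) ⧸ H)
  let ψ : (ι → L) →ₗ[L] (Fin t → L) := (Module.finBasis L ((ι → L) ⧸ H)).equivFun.toLinearMap ∘ₗ H.mkQ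
  have hψsurj : Function.Surjective ψ := by
    have h1 : Function.Surjective H.mkQ := Submodule.mkQ_surjective H
    exact (Module.finBasis L ((ι → L) ⧸ H)).equivFun.surjective.comp h1
  have hψker : ∀ x ∈ Gy, ψ x = 0 := by
    intro x hx
    have h1 : H.mkQ x = 0 := by
      rw [← LinearMap.mem_ker, Submodule.ker_mkQ]
      exact Submodule.subset_span hx
    simp only [ψ, LinearMap.comp_apply, h1, map_zero]
  refine ⟨t, ?_, ?_⟩
  · have h1 : finrank K (H.restrictScalars K) ≤ finrank K (ext1 G y) := Submodule.finrank_mono hHle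
    have h2 : finrank K (H.restrictScalars K) = finrank K L * finrank L H := by
      rw [Module.finrank_mul_finrank K L H]; rfl
    have h3 : finrank K (ι → L) = finrank K L * finrank L (ι → L) :=
      (Module.finrank_mul_finrank K L (ι → L)).symm
    have h4 : finrank L ((ι → L) ⧸ H) + finrank L H = finrank L (ι → L) :=
      Submodule.finrank_quotient_add_finrank H
    have h5 : finrank K (ι → L) = finrank K L * t + finrank K L * finrank L H := by
      rw [h3, ← h4, Nat.mul_add]
    omega
  · have h1 := hG t ψ hψsurj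
    have h2 := finrank_map_add (ι → L) (Fin t → L) (ψ.restrictScalars K) G
    have h3 : finrank K Gy ≤ finrank K (G ⊓ LinearMap.ker (ψ.restrictScalars K) : Submodule K (ι → L)) := by
      apply Submodule.finrank_mono
      intro x hx
      exact ⟨hx.1, hψker x hx⟩
    omega

/-- the span of the products of elements of `G` with squarefree monomials in `y` -/
def mext {s : ℕ} (G : Submodule K (ι → L)) (y : Fin s → L) : Submodule K (ι → L) :=
  Submodule.span K {v | ∃ β : Fin s → ℕ, (∀ i, β i ≤ 1) ∧ ∃ g ∈ G, v = (∏ i, y i ^ β i) • g}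

omit [CharZero K] [FiniteDimensional K L] [Fintype ι] in
lemma le_mext {s : ℕ} (G : Submodule K (ι → L)) (y : Fin s → L) : G ≤ mext G y := by
  intro g hg
  apply Submodule.subset_span
  exact ⟨fun _ => 0, by simp, g, hg, by simp⟩

omit [CharZero K] [FiniteDimensional K L] [Fintype ι] in
lemma ext1_mext_le {s : ℕ} (G : Submodule K (ι → L)) (y : Fin s → L) (z : L) :
    ext1 (mext G y) z ≤ mext G (Fin.snoc y z : Fin (s + 1) → L) := by
  have hprod : ∀ (β : Fin s → ℕ) (e : ℕ),
      ∏ i, (Fin.snoc y z : Fin (s + 1) → L) i ^ (Fin.snoc β e : Fin (s + 1) → ℕ) i =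
        (∏ i, y i ^ β i) * z ^ e := by
    intro β e
    rw [Fin.prod_univ_castSucc]
    simp
  have hβ : ∀ (β : Fin s → ℕ) (e : ℕ), (∀ i, β i ≤ 1) → e ≤ 1 →
      ∀ i, (Fin.snoc β e : Fin (s + 1) → ℕ) i ≤ 1 := by
    intro β e h1 h2 i
    refine Fin.lastCases ?_ (fun i => ?_) i
    · simpa using h2
    · simpa using h1 i
  apply sup_le
  · rw [mext, Submodule.span_le]
    rintro _ ⟨β, hβ1, g, hg, rfl⟩
    apply Submodule.subset_span
    refine ⟨Fin.snoc β 0, hβ β 0 hβ1 (by norm_num), g, hg, ?_⟩
    rw [hprod]; simp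
  · rw [Submodule.map_le_iff_le_comap, mext, Submodule.span_le]
    rintro _ ⟨β, hβ1, g, hg, rfl⟩
    apply Submodule.subset_span
    refine ⟨Fin.snoc β 1, hβ β 1 hβ1 le_rfl, g, hg, ?_⟩
    rw [hprod, sm_apply, smul_smul, pow_one, mul_comm]

lemma grow_step {q n : ℕ} (u : Fin n → L) (hu : Submodule.span K (Set.range u) = ⊤)
    (hn : finrank K L = n) (G : Submodule K (ι → L)) (hG : Good q G) :
    ∃ c : Fin n → ℕ, (∀ l, c l ≤ finrank K (ι → L)) ∧
      (finrank K (ι → L) - finrank K (ext1 G (∑ l, (c l : K) • u l))) * (n + q) ≤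
        (finrank K (ι → L) - finrank K G) * n ∧
      (finrank K (ι → L) - finrank K G < q → ext1 G (∑ l, (c l : K) • u l) = ⊤) := by
  obtain ⟨c, hc1, hc2⟩ := exists_max u hu G
  obtain ⟨t, ht1, ht2⟩ := growth G hG _ hc2
  set E := ext1 G (∑ l, (c l : K) • u l) with hE
  have hle : finrank K E ≤ finrank K (ι → L) := Submodule.finrank_le _
  rw [hn] at ht1
  refine ⟨c, hc1, ?_, ?_⟩
  · obtain ⟨a, ha⟩ : ∃ a, finrank K (ι → L) = finrank K E + a := ⟨_, (Nat.add_sub_cancel' hle).symm⟩
    obtain ⟨d, hd⟩ : ∃ d, finrank K E = finrank K G + t * q + d :=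
      ⟨_, (Nat.add_sub_cancel' ht2).symm⟩
    have h1 : finrank K (ι → L) - finrank K E = a := by omega
    have h2 : finrank K (ι → L) - finrank K G = a + t * q + d := by omega
    have h3 : a ≤ n * t := by omega
    rw [h1, h2]
    calc a * (n + q) = a * n + a * q := by ring
      _ ≤ a * n + (n * t) * q := by gcongr
      _ ≤ (a + t * q + d) * n := by nlinarith
  · intro hlt
    rcases Nat.eq_zero_or_pos t with ht | ht
    · subst ht
      rw [Nat.mul_zero, Nat.add_zero] at ht1
      apply Submodule.eq_top_of_finrank_eq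
      exact le_antisymm hle ht1
    · exfalso
      have : q ≤ t * q := Nat.le_mul_of_pos_left q ht
      omega

theorem grow_iter {q n : ℕ} (u : Fin n → L) (hu : Submodule.span K (Set.range u) = ⊤)
    (hn : finrank K L = n) (G : Submodule K (ι → L)) (hG : Good q G) (s : ℕ) :
    ∃ c : Fin s → Fin n → ℕ, (∀ i l, c i l ≤ finrank K (ι → L)) ∧
      (finrank K (ι → L) - finrank K (mext G (fun i => ∑ l, (c i l : K) • u l))) * (n + q) ^ s ≤
        (finrank K (ι → L) - finrank K G) * n ^ s := by
  induction s with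
  | zero =>
    refine ⟨fun i => i.elim0, fun i => i.elim0, ?_⟩
    simp only [pow_zero, mul_one]
    exact Nat.sub_le_sub_left (Submodule.finrank_mono (le_mext G _)) _
  | succ s ih =>
    obtain ⟨c, hc1, hc2⟩ := ih
    obtain ⟨c', hc'1, hc'2, _⟩ := grow_step u hu hn (mext G (fun i => ∑ l, (c i l : K) • u l))
      (hG.mono (le_mext G _))
    refine ⟨Fin.snoc c c', ?_, ?_⟩
    · intro i l
      refine Fin.lastCases ?_ (fun i => ?_) i
      · simpa using hc'1 l
      · simpa using hc1 i l
    · have e : (fun i => ∑ l, ((Fin.snoc c c' : Fin (s + 1) → Fin n → ℕ) i l : K) • u l) =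
          (Fin.snoc (fun i => ∑ l, (c i l : K) • u l) (∑ l, (c' l : K) • u l) : Fin (s + 1) → L) := by
        funext i
        refine Fin.lastCases ?_ (fun i => ?_) i
        · simp
        · simp
      rw [e]
      have h1 := Submodule.finrank_mono (ext1_mext_le G (fun i => ∑ l, (c i l : K) • u l)
        (∑ l, (c' l : K) • u l))
      calc (finrank K (ι → L) - finrank K (mext G (Fin.snoc (fun i => ∑ l, (c i l : K) • u l)
              (∑ l, (c' l : K) • u l) : Fin (s + 1) → L))) * (n + q) ^ (s + 1)
          ≤ (finrank K (ι → L) - finrank K (ext1 (mext G (fun i => ∑ l, (c i l : K) • u l))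
              (∑ l, (c' l : K) • u l))) * (n + q) ^ (s + 1) := by
            apply Nat.mul_le_mul_right
            exact Nat.sub_le_sub_left h1 _
        _ = ((finrank K (ι → L) - finrank K (ext1 (mext G (fun i => ∑ l, (c i l : K) • u l))
              (∑ l, (c' l : K) • u l))) * (n + q)) * (n + q) ^ s := by ring
        _ ≤ ((finrank K (ι → L) - finrank K (mext G (fun i => ∑ l, (c i l : K) • u l))) * n) *
              (n + q) ^ s := Nat.mul_le_mul_right _ hc'2
        _ = ((finrank K (ι → L) - finrank K (mext G (fun i => ∑ l, (c i l : K) • u l))) *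
              (n + q) ^ s) * n := by ring
        _ ≤ ((finrank K (ι → L) - finrank K G) * n ^ s) * n := Nat.mul_le_mul_right _ hc2
        _ = _ := by ring

theorem grow_top {q n : ℕ} (u : Fin n → L) (hu : Submodule.span K (Set.range u) = ⊤)
    (hn : finrank K L = n) (G : Submodule K (ι → L)) (hG : Good q G) (s : ℕ)
    (hs : finrank K (ι → L) * n ^ s < q * (n + q) ^ s) :
    ∃ c : Fin (s + 1) → Fin n → ℕ, (∀ i l, c i l ≤ finrank K (ι → L)) ∧
      mext G (fun i => ∑ l, (c i l : K) • u l) = ⊤ := by
  obtain ⟨c, hc1, hc2⟩ := grow_iter u hu hn G hG s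
  have hlt : finrank K (ι → L) - finrank K (mext G (fun i => ∑ l, (c i l : K) • u l)) < q := by
    by_contra hcon
    push Not at hcon
    have h1 : q * (n + q) ^ s ≤ (finrank K (ι → L) - finrank K G) * n ^ s :=
      (Nat.mul_le_mul_right _ hcon).trans hc2
    have h2 : (finrank K (ι → L) - finrank K G) * n ^ s ≤ finrank K (ι → L) * n ^ s :=
      Nat.mul_le_mul_right _ (Nat.sub_le _ _)
    omega
  obtain ⟨c', hc'1, _, hc'3⟩ := grow_step u hu hn (mext G (fun i => ∑ l, (c i l : K) • u l))
    (hG.mono (le_mext G _))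
  refine ⟨Fin.snoc c c', ?_, ?_⟩
  · intro i l
    refine Fin.lastCases ?_ (fun i => ?_) i
    · simpa using hc'1 l
    · simpa using hc1 i l
  · have e : (fun i => ∑ l, ((Fin.snoc c c' : Fin (s + 1) → Fin n → ℕ) i l : K) • u l) =
        (Fin.snoc (fun i => ∑ l, (c i l : K) • u l) (∑ l, (c' l : K) • u l) : Fin (s + 1) → L) := by
      funext i
      refine Fin.lastCases ?_ (fun i => ?_) i
      · simp
      · simp
    rw [e, eq_top_iff, ← hc'3 hlt]
    exact ext1_mext_le _ _ _

end

end Pool.Agent.Helper58.NF
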