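import Mathlib

set_option autoImplicit false

namespace Pool.Agent.Helper58.NF

open Finset Matrix

/-- a family of exponent vectors of weight `e` in which unit shifts are disjoint -/
lemma exists_code (r e N : ℕ) (hr : 0 < r) (h : r * N ≤ (r + e - 1).choose e) :
    ∃ (b : Fin N → Fin r → ℕ), Function.Injective b ∧ (∀ j, ∑ t, b j t = e) ∧
      ∃ c : ℕ, ∀ j, (∑ t : Fin r, (t : ℕ) * b j t) % r = c := by
  classical
  let s : Finset (Fin r →₀ ℕ) := Finset.finsuppAntidiag (Finset.univ : Finset (Fin r)) e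
  have hs : s.card = (r + e - 1).choose e := by
    have := Finset.card_finsuppAntidiag_nat_eq_choose (s := (Finset.univ : Finset (Fin r))) e
    simpa using this
  let f : (Fin r →₀ ℕ) → ℕ := fun b => (∑ t : Fin r, (t : ℕ) * b t) % r
  have hmaps : ∀ b ∈ s, f b ∈ Finset.range r := fun b _ => Finset.mem_range.2 (Nat.mod_lt _ hr)
  obtain ⟨c, _, hc⟩ := Finset.exists_le_card_fiber_of_mul_le_card_of_maps_to (n := N) hmaps
    ⟨0, Finset.mem_range.2 hr⟩ (by rw [hs, Finset.card_range]; exact h)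
  obtain ⟨g⟩ : Nonempty (Fin N ↪ {x // x ∈ s.filter (fun x => f x = c)}) := by
    apply Function.Embedding.nonempty_of_card_le
    simpa using hc
  refine ⟨fun j t => (g j).1 t, ?_, ?_, c, ?_⟩
  · intro j j' hjj
    apply g.injective
    apply Subtype.ext
    ext t
    exact congrFun hjj t
  · intro j
    have h1 := (Finset.mem_filter.1 (g j).2).1
    exact (Finset.mem_finsuppAntidiag.1 h1).1
  · intro j
    exact (Finset.mem_filter.1 (g j).2).2

/-- squared distance -/
def sqd {r : ℕ} (a b : Fin r → ℕ) : ℤ := ∑ t, ((a t : ℤ) - b t) ^ 2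

lemma sqd_pos {r : ℕ} (a b : Fin r → ℕ) (h : ∑ t, a t = ∑ t, b t + 1) : 1 ≤ sqd a b := by
  by_contra hcon
  have h0 : sqd a b = 0 := by
    have : 0 ≤ sqd a b := Finset.sum_nonneg (fun t _ => sq_nonneg _)
    omega
  have h1 : ∀ t, a t = b t := by
    intro t
    have := (Finset.sum_eq_zero_iff_of_nonneg (fun t _ => sq_nonneg ((a t : ℤ) - b t))).1 h0 t
      (Finset.mem_univ t)
    have h2 : (a t : ℤ) - b t = 0 := by simpa using this
    omega
  have h2 : ∑ t, a t = ∑ t, b t := Finset.sum_congr rfl (fun t _ => h1 t)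
  omega

lemma sqd_eq_one {r : ℕ} (a b : Fin r → ℕ) (h : ∑ t, a t = ∑ t, b t + 1) (h1 : sqd a b = 1) :
    ∃ t₀, ∀ t, a t = b t + if t = t₀ then 1 else 0 := by
  have hsum : ∑ t, ((a t : ℤ) - b t) = 1 := by
    rw [Finset.sum_sub_distrib]
    have : ((∑ t, a t : ℕ) : ℤ) = ((∑ t, b t + 1 : ℕ) : ℤ) := by rw [h]
    push_cast at this
    linarith
  -- x^2 - x is nonnegative and sums to zero
  have h2 : ∑ t, (((a t : ℤ) - b t) ^ 2 - ((a t : ℤ) - b t)) = 0 := by
    rw [Finset.sum_sub_distrib, hsum]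
    have : ∑ t, ((a t : ℤ) - b t) ^ 2 = 1 := h1
    rw [this]; norm_num
  have h3 : ∀ t, ((a t : ℤ) - b t) = 0 ∨ ((a t : ℤ) - b t) = 1 := by
    intro t
    have hnn : ∀ t ∈ (Finset.univ : Finset (Fin r)),
        0 ≤ ((a t : ℤ) - b t) ^ 2 - ((a t : ℤ) - b t) := by
      intro t _
      rcases le_or_gt ((a t : ℤ) - b t) 0 with h | h
      · nlinarith [sq_nonneg ((a t : ℤ) - b t)]
      · nlinarith
    have h4 := (Finset.sum_eq_zero_iff_of_nonneg hnn).1 h2 t (Finset.mem_univ t)
    have h5 : ((a t : ℤ) - b t) * (((a t : ℤ) - b t) - 1) = 0 := by linarith [h4]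
    rcases mul_eq_zero.1 h5 with h | h
    · left; exact h
    · right; linarith
  obtain ⟨t₀, ht₀⟩ : ∃ t₀, ((a t₀ : ℤ) - b t₀) = 1 := by
    by_contra hcon
    push Not at hcon
    have : ∑ t, ((a t : ℤ) - b t) = 0 := by
      apply Finset.sum_eq_zero
      intro t _
      exact (h3 t).resolve_right (hcon t)
    omega
  refine ⟨t₀, fun t => ?_⟩
  by_cases ht : t = t₀
  · subst ht
    rw [if_pos rfl]
    omega
  · rw [if_neg ht]
    rcases h3 t with h | h
    · omega
    · exfalso
      have h6 : ∑ t, ((a t : ℤ) - b t) ≥ ((a t : ℤ) - b t) + ((a t₀ : ℤ) - b t₀) := by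
        have hnn : ∀ i ∈ (Finset.univ : Finset (Fin r)), i ∉ ({t, t₀} : Finset (Fin r)) →
            0 ≤ ((a i : ℤ) - b i) := by
          intro i _ _
          rcases h3 i with h | h <;> omega
        have := Finset.sum_le_sum_of_subset_of_nonneg (Finset.subset_univ ({t, t₀} : Finset (Fin r))) hnn
        rw [Finset.sum_pair ht] at this
        exact this
      omega

lemma code_dist {r e N : ℕ} (b : Fin N → Fin r → ℕ) (hb : Function.Injective b)
    (hsum : ∀ j, ∑ t, b j t = e) (c : ℕ) (hc : ∀ j, (∑ t : Fin r, (t : ℕ) * b j t) % r = c)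
    (j j' : Fin N) (l : Fin r)
    (h : sqd (fun t => b j' t + if t = l then 1 else 0) (b j) = 1) : j = j' := by
  have hs : ∑ t, (b j' t + if t = l then 1 else 0) = ∑ t, b j t + 1 := by
    rw [Finset.sum_add_distrib, hsum, hsum]
    simp
  obtain ⟨t₀, ht₀⟩ := sqd_eq_one _ _ hs h
  have hw : ∑ t : Fin r, (t : ℕ) * (b j' t + if t = l then 1 else 0) =
      ∑ t : Fin r, (t : ℕ) * (b j t + if t = t₀ then 1 else 0) :=
    Finset.sum_congr rfl (fun t _ => by rw [ht₀ t])
  have e1 : ∀ (x : Fin N) (y : Fin r), ∑ t : Fin r, (t : ℕ) * (b x t + if t = y then 1 else 0) =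
      (∑ t : Fin r, (t : ℕ) * b x t) + y := by
    intro x y
    simp only [Nat.mul_add, Finset.sum_add_distrib]
    congr 1
    simp
  rw [e1, e1] at hw
  have h1 := hc j
  have h2 := hc j'
  have h3 : ((l : ℕ) : ℕ) ≡ (t₀ : ℕ) [MOD r] := by
    have h4 : (∑ t : Fin r, (t : ℕ) * b j' t) ≡ (∑ t : Fin r, (t : ℕ) * b j t) [MOD r] := by
      unfold Nat.ModEq; rw [h1, h2]
    have h5 : (∑ t : Fin r, (t : ℕ) * b j' t) + (l : ℕ) ≡ (∑ t : Fin r, (t : ℕ) * b j t) + t₀ [MOD r] := by
      rw [hw]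
    exact Nat.ModEq.add_left_cancel h4 h5
  have h4 : (l : ℕ) = t₀ := by
    have := h3
    unfold Nat.ModEq at this
    rwa [Nat.mod_eq_of_lt l.2, Nat.mod_eq_of_lt t₀.2] at this
  have h5 : l = t₀ := Fin.ext h4
  subst h5
  apply hb
  funext t
  have := ht₀ t
  omega

lemma prod_zpow_sum {Ω ι : Type*} [Field Ω] {u : Ω} (hu : u ≠ 0) (s : Finset ι) (f : ι → ℤ) :
    ∏ t ∈ s, u ^ (f t) = u ^ (∑ t ∈ s, f t) := by
  classical
  induction s using Finset.induction_on with
  | empty => simp
  | insert a s ha ih => rw [Finset.prod_insert ha, Finset.sum_insert ha, ih, zpow_add₀ hu]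

/-- entries of the gradient matrix -/
def ent {Ω : Type*} [CommSemiring Ω] {r : ℕ} (i : Fin r) (a : Fin r → ℕ) (P : Fin r → Ω) : Ω :=
  (a i : Ω) * ∏ t, P t ^ (a t - if t = i then 1 else 0)

theorem exists_points (Ω : Type*) [Field Ω] [CharZero Ω] (r e N : ℕ) (hr : 0 < r)
    (h : r * N ≤ (r + e - 1).choose e) :
    ∃ (P : Fin N → Fin r → Ω) (a : Fin r × Fin N → Fin r → ℕ), (∀ c, ∑ t, a c t = e + 1) ∧
      (Matrix.of fun (x : Fin r × Fin N) (c : Fin r × Fin N) => ent x.1 (a c) (P x.2)).det ≠ 0 := by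
  classical
  obtain ⟨b, hbinj, hbsum, c₀, hbc⟩ := exists_code r e N hr h
  let a : Fin r × Fin N → Fin r → ℕ := fun c t => b c.2 t + if t = c.1 then 1 else 0
  have hasum : ∀ c, ∑ t, a c t = e + 1 := by
    intro c
    simp only [a]
    rw [Finset.sum_add_distrib, hbsum]
    simp
  have hpos : ∀ (c : Fin r × Fin N) (j : Fin N), 1 ≤ sqd (a c) (b j) := by
    intro c j
    apply sqd_pos
    rw [hasum, hbsum]
  -- polynomial matrix
  let Q : Matrix (Fin r × Fin N) (Fin r × Fin N) (Polynomial Ω) :=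
    Matrix.of fun x c => Polynomial.C ((a c x.1 : Ω)) * Polynomial.X ^ (sqd (a c) (b x.2) - 1).toNat
  have hQ0 : (Q.det).eval 0 ≠ 0 := by
    have h1 : (Q.det).eval 0 = (Q.map (Polynomial.eval 0)).det := by
      have := RingHom.map_det (Polynomial.evalRingHom (0 : Ω)) Q
      simpa using this
    rw [h1]
    have h2 : Q.map (Polynomial.eval 0) = Matrix.blockDiagonal (fun j : Fin N =>
        (1 + Matrix.replicateCol Unit (fun i => (b j i : Ω)) * Matrix.replicateRow Unit (fun _ => (1 : Ω)) :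
          Matrix (Fin r) (Fin r) Ω)) := by
      ext x c
      rw [Matrix.blockDiagonal_apply, Matrix.map_apply]
      simp only [Q, Matrix.of_apply, Polynomial.eval_mul, Polynomial.eval_C, Polynomial.eval_pow,
        Polynomial.eval_X]
      by_cases hx : x.2 = c.2
      · rw [if_pos hx]
        have hd : sqd (a c) (b x.2) = 1 := by
          unfold sqd
          simp only [a, hx]
          have : ∀ t : Fin r, (((b c.2 t + if t = c.1 then 1 else 0 : ℕ) : ℤ) - (b c.2 t : ℤ)) ^ 2 =
              if t = c.1 then 1 else 0 := by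
            intro t
            split_ifs <;> push_cast <;> ring
          rw [Finset.sum_congr rfl (fun t _ => this t)]
          simp
        rw [hd]
        simp only [sub_self, Int.toNat_zero, pow_zero, mul_one]
        simp only [a, Matrix.add_apply, Matrix.one_apply, Matrix.mul_apply, Matrix.replicateCol_apply,
          Matrix.replicateRow_apply, mul_one, Finset.univ_unique, Finset.sum_const,
          Finset.card_singleton, one_smul]
        rw [hx]
        push_cast
        rw [add_comm]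
      · rw [if_neg hx]
        have hne : sqd (a c) (b x.2) ≠ 1 := by
          intro h1
          exact hx (code_dist b hbinj hbsum c₀ hbc x.2 c.2 c.1 h1)
        have h3 := hpos c x.2
        have h4 : (sqd (a c) (b x.2) - 1).toNat ≠ 0 := by omega
        rw [zero_pow h4, mul_zero]
    rw [h2, Matrix.det_blockDiagonal]
    apply Finset.prod_ne_zero_iff.2
    intro j _
    rw [Matrix.det_one_add_replicateCol_mul_replicateRow]
    have h3 : (1 : Ω) + (fun _ => (1 : Ω)) ⬝ᵥ (fun i => (b j i : Ω)) = ((1 + e : ℕ) : Ω) := by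
      rw [← hbsum j]
      simp [dotProduct]
    rw [h3]
    exact Nat.cast_ne_zero.2 (by omega)
  have hQ : Q.det ≠ 0 := by
    intro h0
    rw [h0] at hQ0
    simp at hQ0
  obtain ⟨u, hu⟩ : ∃ u : Ω, (Polynomial.X * Q.det).eval u ≠ 0 := by
    by_contra hcon
    push Not at hcon
    have h5 : Polynomial.X * Q.det = 0 := Polynomial.funext (fun x => by rw [hcon x]; simp)
    exact mul_ne_zero Polynomial.X_ne_zero hQ h5
  rw [Polynomial.eval_mul, Polynomial.eval_X] at hu
  have hu0 : u ≠ 0 := left_ne_zero_of_mul hu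
  have hdet : (Q.map (Polynomial.eval u)).det ≠ 0 := by
    have h1 : (Q.det).eval u = (Q.map (Polynomial.eval u)).det := by
      have := RingHom.map_det (Polynomial.evalRingHom u) Q
      simpa using this
    rw [← h1]
    exact right_ne_zero_of_mul hu
  refine ⟨fun j t => u ^ (-2 * (b j t : ℤ)), a, hasum, ?_⟩
  -- scaling
  let ρ : Fin r × Fin N → Ω := fun x => u ^ (1 + 2 * (b x.2 x.1 : ℤ) - ∑ t, (b x.2 t : ℤ) ^ 2)
  let κ : Fin r × Fin N → Ω := fun c => u ^ (-∑ t, (a c t : ℤ) ^ 2)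
  have key : (Matrix.of fun (x : Fin r × Fin N) (c : Fin r × Fin N) =>
      ent x.1 (a c) (fun t => u ^ (-2 * (b x.2 t : ℤ)))) =
      Matrix.of (fun x c => ρ x * (Matrix.of (fun x c => κ c * (Q.map (Polynomial.eval u)) x c)) x c) := by
    ext x c
    simp only [Matrix.of_apply, ent, Matrix.map_apply, Q, Polynomial.eval_mul, Polynomial.eval_C,
      Polynomial.eval_pow, Polynomial.eval_X, ρ, κ]
    by_cases ha : a c x.1 = 0
    · rw [ha]; simp
    · have h1 : ∀ t, (u ^ (-2 * (b x.2 t : ℤ))) ^ (a c t - if t = x.1 then 1 else 0) =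
          u ^ (-2 * (b x.2 t : ℤ) * ((a c t : ℤ) - if t = x.1 then 1 else 0)) := by
        intro t
        rw [← zpow_natCast, ← _root_.zpow_mul]
        congr 2
        split_ifs with ht
        · subst ht; push_cast [Nat.cast_sub (Nat.one_le_iff_ne_zero.2 ha)]; ring
        · simp
      rw [Finset.prod_congr rfl (fun t _ => h1 t), prod_zpow_sum hu0]
      have h2 : u ^ (sqd (a c) (b x.2) - 1).toNat = u ^ (sqd (a c) (b x.2) - 1) := by
        rw [← zpow_natCast, Int.toNat_of_nonneg (by have := hpos c x.2; omega)]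
      rw [h2]
      have h3 : ∑ t, -2 * (b x.2 t : ℤ) * ((a c t : ℤ) - if t = x.1 then 1 else 0) =
          (1 + 2 * (b x.2 x.1 : ℤ) - ∑ t, (b x.2 t : ℤ) ^ 2) + ((-∑ t, (a c t : ℤ) ^ 2) +
            (sqd (a c) (b x.2) - 1)) := by
        have h4 : ∑ t, -2 * (b x.2 t : ℤ) * ((a c t : ℤ) - if t = x.1 then 1 else 0) =
            ∑ t, (((a c t : ℤ) - b x.2 t) ^ 2 - (a c t : ℤ) ^ 2 - (b x.2 t : ℤ) ^ 2) +
              ∑ t, 2 * (b x.2 t : ℤ) * (if t = x.1 then 1 else 0) := by
          rw [← Finset.sum_add_distrib]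
          apply Finset.sum_congr rfl
          intro t _
          ring
        rw [h4, Finset.sum_sub_distrib, Finset.sum_sub_distrib]
        have h5 : ∑ t, 2 * (b x.2 t : ℤ) * (if t = x.1 then 1 else 0) = 2 * (b x.2 x.1 : ℤ) := by
          simp
        rw [h5]
        unfold sqd
        ring
      rw [h3, zpow_add₀ hu0, zpow_add₀ hu0]
      ring
  rw [key, Matrix.det_mul_column, Matrix.det_mul_row]
  refine mul_ne_zero (Finset.prod_ne_zero_iff.2 fun x _ => zpow_ne_zero _ hu0)
    (mul_ne_zero (Finset.prod_ne_zero_iff.2 fun x _ => zpow_ne_zero _ hu0) hdet)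

end Pool.Agent.Helper58.NF
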