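import Mathlib
import Pool.Agent.Helper58.NF.Grow
import Pool.Agent.Helper58.NF.Trop

set_option autoImplicit false

namespace Pool.Agent.Helper58.NF

open Module

section

variable {K L Ω : Type*} [Field K] [Field L] [Algebra K L] [Field Ω] [Algebra K Ω]

/-- Dedekind independence in coordinates -/
lemma dedekind {m : ℕ} (σ : Fin m → (L →ₐ[K] Ω)) (hσ : Function.Injective σ) (c : Fin m → Ω)
    (h : ∀ x : L, ∑ j, c j * σ j x = 0) : c = 0 := by
  have h1 := linearIndependent_monoidHom L Ω
  have hinj : Function.Injective (fun j => ((σ j : L →+* Ω) : L →* Ω)) := by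
    intro j j' hjj
    apply hσ
    ext x
    exact DFunLike.congr_fun hjj x
  have h2 := h1.comp _ hinj
  rw [Fintype.linearIndependent_iff] at h2
  funext j
  apply h2 c
  funext x
  simpa using h x

/-- The family `v` of elements of `ι → L` separates: no nonzero functional vanishes on its
images under the embeddings. -/
def Sep {q : ℕ} {ι : Type*} [Fintype ι] (γ : Fin q → (L →ₐ[K] Ω)) (G : Submodule K (ι → L)) : Prop :=
  ∀ f : ι × Fin q → Ω, (∀ g ∈ G, ∑ x, f x * γ x.2 (g x.1) = 0) → f = 0

/-- a proper subspace is killed by a nonzero functional, in coordinates -/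
lemma exists_functional {J I : Type*} [Fintype J] [Fintype I] (v : I → J → Ω)
    (h : Fintype.card I < Fintype.card J) :
    ∃ f : J → Ω, f ≠ 0 ∧ ∀ i, ∑ x, f x * v i x = 0 := by
  classical
  let φ : (J → Ω) →ₗ[Ω] (I → Ω) :=
    { toFun := fun f i => ∑ x, f x * v i x
      map_add' := by
        intro f g; funext i
        simp [add_mul, Finset.sum_add_distrib]
      map_smul' := by
        intro c f; funext i
        simp [Finset.mul_sum, mul_assoc] }
  have h1 : finrank Ω (I → Ω) < finrank Ω (J → Ω) := by simpa using h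
  have h2 : LinearMap.ker φ ≠ ⊥ := LinearMap.ker_ne_bot_of_finrank_lt h1
  obtain ⟨f, hf, hf0⟩ := Submodule.exists_mem_ne_zero_of_ne_bot h2
  exact ⟨f, hf0, fun i => congrFun hf i⟩

theorem Sep.good {q : ℕ} {ι : Type*} [Fintype ι] [FiniteDimensional K L]
    {γ : Fin q → (L →ₐ[K] Ω)} {G : Submodule K (ι → L)} (hsep : Sep γ G) : Good q G := by
  classical
  intro t ψ hψ
  by_contra hcon
  push Not at hcon
  let E := G.map (ψ.restrictScalars K)
  let b := Module.finBasis K E
  obtain ⟨f', hf'0, hf'⟩ := exists_functional (Ω := Ω) (J := Fin t × Fin q) (I := Fin (finrank K E))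
    (fun i x => γ x.2 ((b i : Fin t → L) x.1)) (by simpa using hcon)
  -- f' kills everything in E
  have hE : ∀ w ∈ E, ∑ x : Fin t × Fin q, f' x * γ x.2 (w x.1) = 0 := by
    intro w hw
    have h1 : w = ∑ i, (b.repr ⟨w, hw⟩ i) • (b i : Fin t → L) := by
      have h0 := congrArg E.subtype (b.sum_repr ⟨w, hw⟩)
      rw [map_sum] at h0
      simp only [map_smul, Submodule.subtype_apply] at h0
      exact h0.symm
    have h2 : ∀ x : Fin t × Fin q, f' x * γ x.2 (w x.1) =
        ∑ i, algebraMap K Ω (b.repr ⟨w, hw⟩ i) * (f' x * γ x.2 ((b i : Fin t → L) x.1)) := by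
      intro x
      conv_lhs => rw [h1]
      simp only [Finset.sum_apply, Pi.smul_apply, map_sum, map_smul, Finset.mul_sum]
      apply Finset.sum_congr rfl
      intro i _
      rw [Algebra.smul_def]
      ring
    rw [Finset.sum_congr rfl (fun x _ => h2 x), Finset.sum_comm]
    apply Finset.sum_eq_zero
    intro i _
    rw [← Finset.mul_sum, hf' i, mul_zero]
  -- matrix of ψ
  let M : Fin t → ι → L := fun k o => ψ (Pi.single o 1) k
  have hM : ∀ (v : ι → L) (k : Fin t), ψ v k = ∑ o, M k o * v o := by
    intro v k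
    have h1 : v = ∑ o, v o • (Pi.single o 1 : ι → L) := by
      funext o
      simp [Finset.sum_apply, Pi.single_apply]
    conv_lhs => rw [h1]
    simp only [map_sum, map_smul, Finset.sum_apply, Pi.smul_apply, smul_eq_mul]
    apply Finset.sum_congr rfl
    intro o _
    ring
  let f : ι × Fin q → Ω := fun x => ∑ k, f' (k, x.2) * γ x.2 (M k x.1)
  have hf0 : f = 0 := by
    apply hsep
    intro g hg
    have h1 := hE (ψ g) ⟨g, hg, rfl⟩
    rw [← h1, Fintype.sum_prod_type, Fintype.sum_prod_type, Finset.sum_comm,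
      Finset.sum_comm (s := (Finset.univ : Finset (Fin t)))]
    apply Finset.sum_congr rfl
    intro j _
    simp only [f, Finset.sum_mul]
    rw [Finset.sum_comm]
    apply Finset.sum_congr rfl
    intro k _
    rw [hM, map_sum, Finset.mul_sum]
    apply Finset.sum_congr rfl
    intro o _
    rw [map_mul]; ring
  apply hf'0
  funext x
  obtain ⟨k0, j⟩ := x
  obtain ⟨R, hR⟩ := hψ (Pi.single k0 1)
  have h1 : ∑ o, f (o, j) * γ j (R o) = 0 := by
    rw [hf0]; simp
  have h2 : ∑ o, f (o, j) * γ j (R o) = ∑ k, f' (k, j) * γ j (ψ R k) := by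
    simp only [f, Finset.sum_mul]
    rw [Finset.sum_comm]
    apply Finset.sum_congr rfl
    intro k _
    rw [hM, map_sum, Finset.mul_sum]
    apply Finset.sum_congr rfl
    intro o _
    rw [map_mul]; ring
  rw [h2, hR] at h1
  have h3 : ∑ k, f' (k, j) * γ j ((Pi.single k0 1 : Fin t → L) k) = f' (k0, j) := by
    rw [Finset.sum_eq_single k0]
    · simp
    · intro k _ hk
      rw [Pi.single_eq_of_ne hk]; simp
    · simp
  rw [h3] at h1
  exact h1

end

end Pool.Agent.Helper58.NF
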