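import Mathlib
import Pool.Agent.Helper58.NF.Sep
import Pool.Agent.Helper58.NF.Prod

set_option autoImplicit false

namespace Pool.Agent.Helper58.NF

open Module

section

variable {K L Ω : Type*} [Field K] [Field L] [Algebra K L] [Field Ω] [Algebra K Ω]
  {ι : Type*} [Fintype ι] {n : ℕ}

/-- the functional on `ι → L` given by coefficients on `ι × Fin n` -/
noncomputable def fn (σ : Fin n → (L →ₐ[K] Ω)) (f : ι × Fin n → Ω) : (ι → L) →ₗ[K] Ω :=
  ∑ x, (LinearMap.mulLeft K (f x)) ∘ₗ (σ x.2).toLinearMap ∘ₗ LinearMap.proj x.1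

lemma fn_apply (σ : Fin n → (L →ₐ[K] Ω)) (f : ι × Fin n → Ω) (v : ι → L) :
    fn σ f v = ∑ x, f x * σ x.2 (v x.1) := by
  simp [fn]

lemma fn_span (σ : Fin n → (L →ₐ[K] Ω)) (f : ι × Fin n → Ω) (S : Set (ι → L))
    (h : ∀ v ∈ S, fn σ f v = 0) (v : ι → L) (hv : v ∈ Submodule.span K S) : fn σ f v = 0 := by
  have h1 : Submodule.span K S ≤ LinearMap.ker (fn σ f) := by
    rw [Submodule.span_le]
    exact fun v hv => h v hv
  exact h1 hv

lemma eq_zero_of_span_top (σ : Fin n → (L →ₐ[K] Ω)) (hσ : Function.Injective σ) (S : Set (ι → L))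
    (hS : Submodule.span K S = ⊤) (f : ι × Fin n → Ω) (h : ∀ v ∈ S, fn σ f v = 0) : f = 0 := by
  classical
  funext x
  obtain ⟨i, j⟩ := x
  have h1 : (fun j => f (i, j)) = 0 := by
    apply dedekind σ hσ
    intro t
    have h2 := fn_span σ f S h (Pi.single i t) (by rw [hS]; exact Submodule.mem_top)
    rw [fn_apply, Fintype.sum_prod_type, Finset.sum_eq_single i] at h2
    · simpa using h2
    · intro k _ hk
      simp [Pi.single_eq_of_ne hk]
    · simp
  exact congrFun h1 j

/-- if no nonzero functional kills `S`, then `S` spans -/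
lemma span_top_of_dual {J : Type*} [Fintype J] (S : Set (J → Ω))
    (h : ∀ f : J → Ω, (∀ v ∈ S, ∑ x, f x * v x = 0) → f = 0) : Submodule.span Ω S = ⊤ := by
  classical
  by_contra hne
  obtain ⟨g, hg0, hg⟩ := Submodule.exists_le_ker_of_lt_top _ (lt_top_iff_ne_top.2 hne)
  apply hg0
  have h1 : ∀ v : J → Ω, g v = ∑ x, g (Pi.single x 1) * v x := by
    intro v
    have h2 : v = ∑ x, v x • (Pi.single x 1 : J → Ω) := by
      funext x
      simp [Finset.sum_apply, Pi.single_apply]
    conv_lhs => rw [h2]
    simp only [map_sum, map_smul, smul_eq_mul]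
    apply Finset.sum_congr rfl
    intro x _
    ring
  have h3 : (fun x => g (Pi.single x 1)) = 0 := by
    apply h
    intro v hv
    rw [← h1]
    exact hg (Submodule.subset_span hv)
  apply LinearMap.ext
  intro v
  rw [h1 v]
  apply Finset.sum_eq_zero
  intro x _
  have := congrFun h3 x
  simp only [Pi.zero_apply] at this
  rw [this, zero_mul]

/-- linear independence over `K` gives linear independence of the columns over `Ω` -/
lemma cols_indep [FiniteDimensional K L] (σ : Fin n → (L →ₐ[K] Ω)) (hσ : Function.Injective σ)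
    (hn : finrank K L = n) {q : ℕ} (w : Fin q → L) (hw : LinearIndependent K w) (c : Fin q → Ω)
    (h : ∀ j, ∑ l, c l * σ j (w l) = 0) : c = 0 := by
  classical
  by_contra hc
  obtain ⟨l0, hl0⟩ := Function.ne_iff.1 hc
  let b := Basis.extend hw.linearIndepOn_id
  have hfin : Finite (hw.linearIndepOn_id.extend (Set.subset_univ _)) := Module.Finite.finite_basis b
  have hft := Fintype.ofFinite (hw.linearIndepOn_id.extend (Set.subset_univ _))
  have hcard : Fintype.card (hw.linearIndepOn_id.extend (Set.subset_univ _)) = n := by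
    rw [← hn, Module.finrank_eq_card_basis b]
  have hmem : ∀ l, w l ∈ hw.linearIndepOn_id.extend (Set.subset_univ _) := fun l =>
    hw.linearIndepOn_id.subset_extend _ ⟨l, rfl⟩
  have hbinl : ∀ l, b ⟨w l, hmem l⟩ = w l := fun l => by
    simp [b]
  let I := {i : hw.linearIndepOn_id.extend (Set.subset_univ _) // i ≠ ⟨w l0, hmem l0⟩}
  have hI : Fintype.card I < Fintype.card (Fin n) := by
    rw [Fintype.card_fin, ← hcard]
    exact Fintype.card_subtype_lt (x := ⟨w l0, hmem l0⟩) (by simp)
  obtain ⟨f, hf0, hf⟩ := exists_functional (Ω := Ω) (J := Fin n) (I := I)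
    (fun i j => σ j (b i.1)) hI
  have hall : ∀ i, ∑ j, f j * σ j (b i) = 0 := by
    intro i
    by_cases hi : i = ⟨w l0, hmem l0⟩
    · rw [hi, hbinl]
      have h1 : ∑ j, f j * (∑ l, c l * σ j (w l)) = 0 := by
        apply Finset.sum_eq_zero
        intro j _
        rw [h j, mul_zero]
      have h2 : ∑ j, f j * (∑ l, c l * σ j (w l)) = ∑ l, c l * ∑ j, f j * σ j (w l) := by
        simp only [Finset.mul_sum]
        rw [Finset.sum_comm]
        apply Finset.sum_congr rfl
        intro l _
        apply Finset.sum_congr rfl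
        intro j _
        ring
      rw [h2, Finset.sum_eq_single l0] at h1
      · exact (mul_eq_zero.1 h1).resolve_left hl0
      · intro l _ hl
        have h3 := hf ⟨⟨w l, hmem l⟩, fun h => hl (hw.injective (congrArg Subtype.val h))⟩
        simp only [hbinl] at h3
        rw [h3, mul_zero]
      · simp
    · exact hf ⟨i, hi⟩
  apply hf0
  apply dedekind σ hσ
  intro x
  have h1 : x = ∑ i, b.repr x i • b i := (b.sum_repr x).symm
  have h2 : ∀ j, f j * σ j x = ∑ i, algebraMap K Ω (b.repr x i) * (f j * σ j (b i)) := by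
    intro j
    conv_lhs => rw [h1]
    simp only [map_sum, map_smul, Finset.mul_sum]
    apply Finset.sum_congr rfl
    intro i _
    rw [Algebra.smul_def]; ring
  rw [Finset.sum_congr rfl (fun j _ => h2 j), Finset.sum_comm]
  apply Finset.sum_eq_zero
  intro i _
  rw [← Finset.mul_sum, hall i, mul_zero]

/-- a subset of the embeddings on which `w` has a nonsingular matrix -/
lemma exists_gamma [FiniteDimensional K L] (σ : Fin n → (L →ₐ[K] Ω)) (hσ : Function.Injective σ)
    (hn : finrank K L = n) {q : ℕ} (w : Fin q → L) (hw : LinearIndependent K w) :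
    ∃ γ : Fin q → (L →ₐ[K] Ω), (Matrix.of fun i l => γ i (w l)).det ≠ 0 := by
  classical
  have h1 : Submodule.span Ω (Set.range fun j : Fin n => fun l : Fin q => σ j (w l)) = ⊤ := by
    apply span_top_of_dual
    intro f hf
    apply cols_indep σ hσ hn w hw f
    intro j
    exact hf _ ⟨j, rfl⟩
  obtain ⟨v, hv, hli⟩ := exists_indep (K := Ω)
    (Set.range fun j : Fin n => fun l : Fin q => σ j (w l)) q (by rw [h1, finrank_top]; simp)
  choose j hj using hv
  refine ⟨fun i => σ (j i), ?_⟩
  have h2 : LinearIndependent Ω (Matrix.of fun i l => σ (j i) (w l)).row := by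
    have : (Matrix.of fun i l => σ (j i) (w l)).row = v := by
      funext i
      exact hj i
    rw [this]; exact hli
  have h3 := Matrix.linearIndependent_rows_iff_isUnit.1 h2
  rw [Matrix.isUnit_iff_isUnit_det] at h3
  exact h3.ne_zero

lemma map_ent {R S : Type*} [CommSemiring R] [CommSemiring S] (φ : R →+* S) {r : ℕ} (i : Fin r)
    (a : Fin r → ℕ) (x : Fin r → R) : φ (ent i a x) = ent i a (fun t => φ (x t)) := by
  simp [ent, map_prod]

/-- choice of the main variables: integer combinations of `w` with small coefficients -/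
theorem exists_x [CharZero Ω] (r e q : ℕ) (hr : 0 < r) (hcomb : r * q ≤ (r + e - 1).choose e)
    (w : Fin q → L) (γ : Fin q → (L →ₐ[K] Ω)) (hdet : (Matrix.of fun i l => γ i (w l)).det ≠ 0) :
    ∃ c : Fin r × Fin q → ℕ, (∀ x, c x ≤ (e + 1) * (r * q)) ∧
      ∃ a : Fin r × Fin q → Fin r → ℕ, (∀ c', ∑ t, a c' t = e + 1) ∧
        (Matrix.of fun (x : Fin r × Fin q) (c' : Fin r × Fin q) =>
          ent x.1 (a c') (fun i => γ x.2 (∑ l, (c (i, l) : K) • w l))).det ≠ 0 := by
  classical
  obtain ⟨P, a, ha, hPdet⟩ := exists_points Ω r e q hr hcomb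
  set A : Matrix (Fin q) (Fin q) Ω := Matrix.of fun i l => γ i (w l) with hA
  let v : Fin r × Fin q → (Fin r × Fin q → Ω) → (Fin r × Fin q → Ω) := fun c' C x =>
    ent x.1 (a c') (fun i => ∑ l, C (i, l) * γ x.2 (w l))
  have hv : ∀ (c' : Fin r × Fin q) (f : (Fin r × Fin q → Ω) →ₗ[Ω] Ω),
      ∃ p : MvPolynomial (Fin r × Fin q) Ω, p.totalDegree ≤ e + 1 ∧
        ∀ C, MvPolynomial.eval C p = f (v c' C) := by
    intro c' f
    refine ⟨∑ x : Fin r × Fin q, MvPolynomial.C (f (Pi.single x 1)) *
      (MvPolynomial.C ((a c' x.1 : Ω)) * ∏ t, (∑ l, MvPolynomial.X (t, l) *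
        MvPolynomial.C (γ x.2 (w l))) ^ (a c' t - if t = x.1 then 1 else 0)), ?_, ?_⟩
    · refine (MvPolynomial.totalDegree_finsetSum _ _).trans ?_
      apply Finset.sup_le
      intro x _
      refine (MvPolynomial.totalDegree_mul _ _).trans ?_
      rw [MvPolynomial.totalDegree_C, zero_add]
      refine (MvPolynomial.totalDegree_mul _ _).trans ?_
      rw [MvPolynomial.totalDegree_C, zero_add]
      refine (MvPolynomial.totalDegree_finsetProd _ _).trans ?_
      rw [← ha c']
      apply Finset.sum_le_sum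
      intro t _
      refine (MvPolynomial.totalDegree_pow _ _).trans ?_
      have h1 : (∑ l, MvPolynomial.X (t, l) * MvPolynomial.C (γ x.2 (w l)) :
          MvPolynomial (Fin r × Fin q) Ω).totalDegree ≤ 1 := by
        refine (MvPolynomial.totalDegree_finsetSum _ _).trans ?_
        apply Finset.sup_le
        intro l _
        refine (MvPolynomial.totalDegree_mul _ _).trans ?_
        rw [MvPolynomial.totalDegree_C, add_zero, MvPolynomial.totalDegree_X]
      calc (a c' t - if t = x.1 then 1 else 0) * _ ≤ (a c' t - if t = x.1 then 1 else 0) * 1 :=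
            Nat.mul_le_mul_left _ h1
        _ ≤ a c' t := by rw [mul_one]; exact Nat.sub_le _ _
    · intro C
      have h1 : f (v c' C) = ∑ x, f (Pi.single x 1) * v c' C x := by
        have h2 : v c' C = ∑ x, v c' C x • (Pi.single x 1 : Fin r × Fin q → Ω) := by
          funext x
          simp [Finset.sum_apply, Pi.single_apply]
        conv_lhs => rw [h2]
        simp only [map_sum, map_smul, smul_eq_mul]
        apply Finset.sum_congr rfl
        intro x _
        ring
      rw [h1, map_sum]
      apply Finset.sum_congr rfl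
      intro x _
      simp [v, ent, map_prod]
  let C0 : Fin r × Fin q → Ω := fun x => (A⁻¹.mulVec (fun j => P j x.1)) x.2
  have hC0 : ∀ (i : Fin r) (j : Fin q), ∑ l, C0 (i, l) * γ j (w l) = P j i := by
    intro i j
    have h1 : A.mulVec (A⁻¹.mulVec (fun j => P j i)) = fun j => P j i := by
      rw [Matrix.mulVec_mulVec, Matrix.mul_nonsing_inv _ (isUnit_iff_ne_zero.2 hdet), Matrix.one_mulVec]
    have h2 := congrFun h1 j
    rw [← h2]
    simp only [Matrix.mulVec, dotProduct, A, Matrix.of_apply, C0]
    apply Finset.sum_congr rfl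
    intro l _
    ring
  have h0 : LinearIndependent Ω (fun c' => v c' C0) := by
    have h1 := Matrix.linearIndependent_cols_of_det_ne_zero hPdet
    have h2 : (fun c' => v c' C0) = (Matrix.of fun (x : Fin r × Fin q) (c : Fin r × Fin q) =>
        ent x.1 (a c) (P x.2)).col := by
      funext c' x
      simp only [v, Matrix.col_apply, Matrix.of_apply]
      congr 1
      funext i
      exact hC0 i x.2
    rw [h2]; exact h1
  obtain ⟨c, hc1, hc2, _⟩ := gen (e + 1) v hv C0 h0 1 one_ne_zero
  refine ⟨c, ?_, a, ha, ?_⟩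
  · intro x
    have := hc1 x
    rw [MvPolynomial.totalDegree_one] at this
    simpa using this
  · have h1 : (Matrix.of fun (x : Fin r × Fin q) (c' : Fin r × Fin q) =>
          ent x.1 (a c') (fun i => γ x.2 (∑ l, (c (i, l) : K) • w l))) =
        Matrix.of fun (x : Fin r × Fin q) (c' : Fin r × Fin q) => v c' (fun l => (c l : Ω)) x := by
      ext x c'
      simp only [Matrix.of_apply, v]
      congr 1
      funext i
      rw [map_sum]
      apply Finset.sum_congr rfl
      intro l _
      rw [map_smul, Algebra.smul_def, map_natCast]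
    rw [h1]
    intro hdet0
    have h3 : LinearIndependent Ω (Matrix.of fun (x : Fin r × Fin q) (c' : Fin r × Fin q) =>
        v c' (fun l => (c l : Ω)) x).col := hc2
    have h4 := Matrix.linearIndependent_cols_iff_isUnit.1 h3
    rw [Matrix.isUnit_iff_isUnit_det, hdet0] at h4
    exact not_isUnit_zero h4

end

end Pool.Agent.Helper58.NF
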