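import Mathlib
import Pool.Agent.Helper58.NF.Jet

set_option autoImplicit false

namespace Pool.Agent.Helper58.NF

open Module

section

variable {K L Ω : Type*} [Field K] [Field L] [Algebra K L] [Field Ω] [Algebra K Ω]

/-- gradients of monomials of degree `e + 1` and values of monomials of degree `e` -/
def Gset {R : Type*} [CommSemiring R] (r e : ℕ) (x : Fin r → R) : Set (Option (Fin r) → R) :=
  {v | ∃ a : Fin r → ℕ, ∑ t, a t = e + 1 ∧ v = fun o => o.elim 0 (fun i => ent i a x)} ∪
  {v | ∃ a : Fin r → ℕ, ∑ t, a t = e ∧ v = fun o => o.elim (∏ t, x t ^ a t) (fun _ => 0)}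

theorem sep_G {r e q : ℕ} (hr : 0 < r) (x : Fin r → L) (γ : Fin q → (L →ₐ[K] Ω))
    (a : Fin r × Fin q → Fin r → ℕ) (ha : ∀ c', ∑ t, a c' t = e + 1)
    (hdet : (Matrix.of fun (y : Fin r × Fin q) (c' : Fin r × Fin q) =>
          ent y.1 (a c') (fun i => γ y.2 (x i))).det ≠ 0) :
    Sep γ (Submodule.span K (Gset r e x)) := by
  classical
  intro f hf
  have hsome : (fun y : Fin r × Fin q => f (some y.1, y.2)) = 0 := by
    apply Matrix.eq_zero_of_vecMul_eq_zero hdet
    funext c'
    have h1 := hf (fun o => o.elim 0 (fun i => ent i (a c') x))
      (Submodule.subset_span (Or.inl ⟨a c', ha c', rfl⟩))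
    rw [Fintype.sum_prod_type, Fintype.sum_option] at h1
    simp only [Option.elim_none, map_zero, mul_zero, Finset.sum_const_zero, zero_add,
      Option.elim_some] at h1
    simp only [Matrix.vecMul, dotProduct, Matrix.of_apply, Pi.zero_apply]
    rw [Fintype.sum_prod_type, ← h1]
    apply Finset.sum_congr rfl
    intro i _
    apply Finset.sum_congr rfl
    intro j _
    congr 1
    exact (map_ent ((γ j : L →ₐ[K] Ω) : L →+* Ω) i (a c') x).symm
  have hnone : ∀ j, f (none, j) = 0 := by
    let i0 : Fin r := ⟨0, hr⟩
    have h1 : (fun y : Fin r × Fin q => if y.1 = i0 then f (none, y.2) else 0) = 0 := by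
      apply Matrix.eq_zero_of_vecMul_eq_zero hdet
      funext c'
      simp only [Matrix.vecMul, dotProduct, Matrix.of_apply, Pi.zero_apply]
      rw [Fintype.sum_prod_type, Finset.sum_eq_single i0]
      · simp only [if_true]
        by_cases h0 : a c' i0 = 0
        · apply Finset.sum_eq_zero
          intro j _
          simp [ent, h0]
        · have h2 := hf (fun o => o.elim (∏ t, x t ^ (a c' t - if t = i0 then 1 else 0)) (fun _ => 0))
            (Submodule.subset_span (Or.inr ⟨fun t => a c' t - if t = i0 then 1 else 0, ?_, rfl⟩))
          · rw [Fintype.sum_prod_type, Fintype.sum_option] at h2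
            simp only [Option.elim_none, map_zero, mul_zero, Finset.sum_const_zero, add_zero,
              Option.elim_some] at h2
            have h3 : ∀ j, f (none, j) * ent i0 (a c') (fun i => γ j (x i)) =
                (a c' i0 : Ω) * (f (none, j) * γ j (∏ t, x t ^ (a c' t - if t = i0 then 1 else 0))) := by
              intro j
              simp only [ent, map_prod, map_pow]
              ring
            rw [Finset.sum_congr rfl (fun j _ => h3 j), ← Finset.mul_sum, h2, mul_zero]
          · have h4 : ∑ t, (a c' t - if t = i0 then 1 else 0) + ∑ t, (if t = i0 then 1 else 0) =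
                ∑ t, a c' t := by
              rw [← Finset.sum_add_distrib]
              apply Finset.sum_congr rfl
              intro t _
              split_ifs with ht
              · subst ht; omega
              · omega
            rw [ha] at h4
            simp only [Finset.sum_ite_eq', Finset.mem_univ, if_true] at h4
            have h5 : ∑ t, (a c' t - if t = i0 then 1 else 0) = e := by omega
            exact h5
      · intro i _ hi
        simp [hi]
      · simp
    intro j
    have h2 := congrFun h1 (i0, j)
    simpa using h2
  funext y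
  obtain ⟨o, j⟩ := y
  rcases o with _ | i
  · exact hnone j
  · exact congrFun hsome (i, j)

end

end Pool.Agent.Helper58.NF
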