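import Mathlib
import Pool.Agent.Helper58.NF.Elt

set_option autoImplicit false

namespace Pool.Agent.Helper58.NF

open Module

lemma exists_indep' {K V J : Type*} [Field K] [AddCommGroup V] [Module K V] [FiniteDimensional K V]
    [Fintype J] (S : Set V) (hk : Fintype.card J ≤ finrank K (Submodule.span K S)) :
    ∃ w : J → V, (∀ i, w i ∈ S) ∧ LinearIndependent K w := by
  obtain ⟨w, hw1, hw2⟩ := exists_indep S (Fintype.card J) hk
  exact ⟨fun j => w (Fintype.equivFin J j), fun j => hw1 _,
    hw2.comp _ (Fintype.equivFin J).injective⟩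

lemma selection {Ω V W I J : Type*} [Field Ω] [AddCommGroup V] [Module Ω V] [AddCommGroup W]
    [Module Ω W] [FiniteDimensional Ω V] [FiniteDimensional Ω W] [Fintype I] [Fintype J]
    (π : V →ₗ[Ω] W) (A B : Set V) (hA : Submodule.span Ω (π '' A) = ⊤)
    (hB : Submodule.span Ω B = ⊤) (hI : Fintype.card I = finrank Ω W)
    (hJ : Fintype.card I + Fintype.card J = finrank Ω V) :
    ∃ a : I → V, (∀ i, a i ∈ A) ∧ ∃ b : J → V, (∀ j, b j ∈ B) ∧
      LinearIndependent Ω (Sum.elim a b) := by
  obtain ⟨w, hw1, hw2⟩ := exists_indep' (K := Ω) (J := I) (π '' A) (by rw [hA, finrank_top, hI])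
  choose a ha1 ha2 using hw1
  have hali : LinearIndependent Ω a := by
    apply LinearIndependent.of_comp π
    have : (π ∘ a) = w := funext ha2
    rw [this]; exact hw2
  let U := Submodule.span Ω (Set.range a)
  have hU : finrank Ω U = Fintype.card I := finrank_span_eq_card hali
  let f : I → U := fun i => ⟨a i, Submodule.subset_span ⟨i, rfl⟩⟩
  have hf : LinearIndependent Ω f := LinearIndependent.of_comp U.subtype hali
  have hq : Submodule.span Ω (U.mkQ '' B) = ⊤ := by
    rw [Submodule.span_image, hB, Submodule.map_top, Submodule.range_mkQ]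
  have hfr : finrank Ω (V ⧸ U) = Fintype.card J := by
    have := Submodule.finrank_quotient_add_finrank U
    omega
  obtain ⟨w', hw'1, hw'2⟩ := exists_indep' (K := Ω) (J := J) (U.mkQ '' B)
    (by rw [hq, finrank_top, hfr])
  choose b hb1 hb2 using hw'1
  refine ⟨a, ha1, b, hb1, ?_⟩
  have h1 := LinearIndependent.sumElim_of_quotient hf b (by
    have : (Submodule.Quotient.mk (p := U) ∘ b) = w' := funext hb2
    rw [this]; exact hw'2)
  exact h1

section

variable {τ R : Type*} [Fintype τ] [CommSemiring R]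

/-- the monomial with exponents `α` -/
noncomputable def mo (R : Type*) [CommSemiring R] {τ : Type*} [Fintype τ] (α : τ → ℕ) :
    MvPolynomial τ R := MvPolynomial.monomial (Finsupp.equivFunOnFinite.symm α) 1

lemma eval_mo (α : τ → ℕ) (p : τ → R) : MvPolynomial.eval p (mo R α) = ∏ t, p t ^ α t := by
  rw [mo, MvPolynomial.eval_monomial, one_mul, Finsupp.prod_fintype]
  · simp
  · simp

lemma eval_pderiv_mo [DecidableEq τ] (α : τ → ℕ) (p : τ → R) (i : τ) :
    MvPolynomial.eval p (MvPolynomial.pderiv i (mo R α)) =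
      (α i : R) * ∏ t, p t ^ (α t - if t = i then 1 else 0) := by
  rw [mo, MvPolynomial.pderiv_monomial, MvPolynomial.eval_monomial, Finsupp.prod_fintype]
  · simp [Finsupp.single_apply, eq_comm]
  · simp

lemma mo_mul (α β : τ → ℕ) : mo R α * mo R β = mo R (α + β) := by
  rw [mo, mo, mo, MvPolynomial.monomial_mul, one_mul]
  congr 2
  ext t
  simp

lemma mo_single [DecidableEq τ] (t : τ) : mo R (Pi.single t 1) = MvPolynomial.X t := by
  rw [mo, MvPolynomial.X]
  congr 1
  ext s
  simp [eq_comm]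

lemma mo_zero : mo R (0 : τ → ℕ) = 1 := by
  rw [mo]
  have : (Finsupp.equivFunOnFinite.symm (0 : τ → ℕ)) = 0 := by ext; simp
  rw [this]; rfl

end

section

variable {K L Ω : Type*} [Field K] [Field L] [Algebra K L] [Field Ω] [Algebra K Ω]
  {r e S n : ℕ}

/-- the point attached to an embedding -/
def pt (σ : Fin n → (L →ₐ[K] Ω)) {τ : Type*} (z : τ → L) (j : Fin n) : τ → Ω := fun t => σ j (z t)

/-- gradient vector of a polynomial at all points -/
noncomputable def gv (σ : Fin n → (L →ₐ[K] Ω)) {τ : Type*} (z : τ → L) :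
    MvPolynomial τ Ω →ₗ[Ω] (τ × Fin n → Ω) :=
  LinearMap.pi fun x => (MvPolynomial.aeval (pt σ z x.2)).toLinearMap ∘ₗ
    (MvPolynomial.pderiv x.1).toLinearMap

lemma gv_apply (σ : Fin n → (L →ₐ[K] Ω)) {τ : Type*} (z : τ → L) (f : MvPolynomial τ Ω)
    (x : τ × Fin n) :
    gv σ z f x = MvPolynomial.eval (pt σ z x.2) (MvPolynomial.pderiv x.1 f) := by
  simp [gv, MvPolynomial.aeval_eq_eval]

/-- exponents of gradient type -/
def SA (r e S : ℕ) : Set (Fin r ⊕ Fin S → ℕ) :=
  {α | ∑ i, α (Sum.inl i) = e + 1 ∧ ∀ k, α (Sum.inr k) ≤ 1}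

/-- exponents of value type -/
def SM (r e S : ℕ) : Set (Fin r ⊕ Fin S → ℕ) :=
  {α | ∑ i, α (Sum.inl i) = e ∧ ∀ k, α (Sum.inr k) ≤ 1}

/-- exponents of square type -/
def SB (r e S : ℕ) : Set (Fin r ⊕ Fin S → ℕ) :=
  {α | ∑ i, α (Sum.inl i) ≤ 2 * e + 1 ∧ ∀ k, α (Sum.inr k) ≤ 3}

lemma grad_part (x : Fin r → L) (y : Fin S → L)
    (htop : mext (Submodule.span K (Gset r e x)) y = ⊤) (σ : Fin n → (L →ₐ[K] Ω))
    (hσ : Function.Injective σ) (f : Fin r × Fin n → Ω)
    (hf : ∀ α ∈ SA r e S, ∑ w : Fin r × Fin n,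
      f w * gv σ (Sum.elim x y) (mo Ω α) (Sum.inl w.1, w.2) = 0) : f = 0 := by
  classical
  let T : Set (Fin r → L) := {v | ∃ a : Fin r → ℕ, ∃ β : Fin S → ℕ, ∑ t, a t = e + 1 ∧
    (∀ i, β i ≤ 1) ∧ v = fun i => (∏ k, y k ^ β k) * ent i a x}
  let π : (Option (Fin r) → L) →ₗ[K] (Fin r → L) :=
    LinearMap.funLeft K L some
  have hπsurj : Function.Surjective π := LinearMap.funLeft_surjective_of_injective K L some
    (Option.some_injective _)
  have hT : Submodule.span K T = ⊤ := by
    rw [eq_top_iff]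
    have h1 : (⊤ : Submodule K (Fin r → L)) = (mext (Submodule.span K (Gset r e x)) y).map π := by
      rw [htop, Submodule.map_top, LinearMap.range_eq_top.2 hπsurj]
    rw [h1, mext, Submodule.map_span, Submodule.span_le]
    rintro _ ⟨_, ⟨β, hβ, g, hg, rfl⟩, rfl⟩
    show π ((∏ i, y i ^ β i) • g) ∈ Submodule.span K T
    induction hg using Submodule.span_induction with
    | mem g hg =>
      rcases hg with ⟨a, ha, rfl⟩ | ⟨a, ha, rfl⟩
      · apply Submodule.subset_span
        exact ⟨a, β, ha, hβ, rfl⟩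
      · have h2 : π ((∏ i, y i ^ β i) • (fun o => o.elim (∏ t, x t ^ a t) (fun _ => 0) :
            Option (Fin r) → L)) = 0 := by
          funext i
          simp [π, LinearMap.funLeft]
        rw [h2]
        exact Submodule.zero_mem _
    | zero => rw [smul_zero, map_zero]; exact Submodule.zero_mem _
    | add a b ha hb iha ihb => rw [smul_add, map_add]; exact Submodule.add_mem _ iha ihb
    | smul c b hb ih =>
      rw [smul_comm, map_smul]
      exact Submodule.smul_mem _ _ ih
  apply eq_zero_of_span_top σ hσ T hT f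
  rintro _ ⟨a, β, ha, hβ, rfl⟩
  rw [fn_apply, ← hf (Sum.elim a β) ⟨by simpa using ha, by simpa using hβ⟩]
  apply Finset.sum_congr rfl
  intro w _
  congr 1
  rw [gv_apply, eval_pderiv_mo, Fintype.prod_sum_type]
  simp only [pt, Sum.elim_inl, Sum.elim_inr, map_mul, map_prod, map_pow, ent, map_natCast,
    Sum.inl.injEq, reduceCtorEq, if_false, Nat.sub_zero]
  ring

lemma value_span (x : Fin r → L) (y : Fin S → L)
    (htop : mext (Submodule.span K (Gset r e x)) y = ⊤) :
    Submodule.span K {v : Unit → L | ∃ α ∈ SM r e S, v = fun _ => ∏ t, (Sum.elim x y) t ^ α t} = ⊤ := by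
  classical
  set T : Set (Unit → L) := {v : Unit → L | ∃ α ∈ SM r e S, v = fun _ => ∏ t, (Sum.elim x y) t ^ α t}
  let π : (Option (Fin r) → L) →ₗ[K] (Unit → L) :=
    LinearMap.funLeft K L (fun _ => none)
  have hπsurj : Function.Surjective π := LinearMap.funLeft_surjective_of_injective K L _
    (fun _ _ _ => rfl)
  rw [eq_top_iff]
  have h1 : (⊤ : Submodule K (Unit → L)) = (mext (Submodule.span K (Gset r e x)) y).map π := by
    rw [htop, Submodule.map_top, LinearMap.range_eq_top.2 hπsurj]
  rw [h1, mext, Submodule.map_span, Submodule.span_le]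
  rintro _ ⟨_, ⟨β, hβ, g, hg, rfl⟩, rfl⟩
  show π ((∏ i, y i ^ β i) • g) ∈ Submodule.span K T
  induction hg using Submodule.span_induction with
  | mem g hg =>
    rcases hg with ⟨a, ha, rfl⟩ | ⟨a, ha, rfl⟩
    · have h2 : π ((∏ i, y i ^ β i) • (fun o => o.elim 0 (fun i => ent i a x) :
          Option (Fin r) → L)) = 0 := by
        funext i
        simp [π, LinearMap.funLeft]
      rw [h2]
      exact Submodule.zero_mem _
    · apply Submodule.subset_span
      refine ⟨Sum.elim a β, ⟨by simpa using ha, by simpa using hβ⟩, ?_⟩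
      funext i
      simp [π, LinearMap.funLeft, mul_comm]
  | zero => rw [smul_zero, map_zero]; exact Submodule.zero_mem _
  | add a b ha hb iha ihb => rw [smul_add, map_add]; exact Submodule.add_mem _ iha ihb
  | smul c b hb ih =>
    rw [smul_comm, map_smul]
    exact Submodule.smul_mem _ _ ih

/-- values of polynomials at all points -/
noncomputable def vv (σ : Fin n → (L →ₐ[K] Ω)) {τ : Type*} (z : τ → L) :
    MvPolynomial τ Ω →ₗ[Ω] (Fin n → Ω) :=
  LinearMap.pi fun j => (MvPolynomial.aeval (pt σ z j)).toLinearMap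

lemma vv_apply (σ : Fin n → (L →ₐ[K] Ω)) {τ : Type*} (z : τ → L) (f : MvPolynomial τ Ω)
    (j : Fin n) : vv σ z f j = MvPolynomial.eval (pt σ z j) f := by
  simp [vv, MvPolynomial.aeval_eq_eval]

lemma exists_interp (x : Fin r → L) (y : Fin S → L)
    (htop : mext (Submodule.span K (Gset r e x)) y = ⊤) (σ : Fin n → (L →ₐ[K] Ω))
    (hσ : Function.Injective σ) (j0 : Fin n) :
    ∃ g ∈ Submodule.span Ω (mo Ω '' (SM r e S)),
      ∀ j, MvPolynomial.eval (pt σ (Sum.elim x y) j) g = if j = j0 then 1 else 0 := by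
  classical
  have h1 : Submodule.span Ω (vv σ (Sum.elim x y) '' (mo Ω '' (SM r e S))) = ⊤ := by
    apply span_top_of_dual
    intro f hf
    have h2 : (fun w : Unit × Fin n => f w.2) = 0 := by
      apply eq_zero_of_span_top σ hσ _ (value_span x y htop)
      rintro _ ⟨α, hα, rfl⟩
      have h3 := hf _ ⟨_, ⟨α, hα, rfl⟩, rfl⟩
      rw [fn_apply, ← h3, Fintype.sum_prod_type]
      simp only [Finset.univ_unique, Finset.sum_singleton]
      apply Finset.sum_congr rfl
      intro j _
      congr 1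
      rw [vv_apply, eval_mo, map_prod]
      simp [pt]
    funext j
    exact congrFun h2 ((), j)
  rw [Submodule.span_image] at h1
  have h2 : (fun j => if j = j0 then (1 : Ω) else 0) ∈
      (Submodule.span Ω (mo Ω '' (SM r e S))).map (vv σ (Sum.elim x y)) := by
    rw [h1]; exact Submodule.mem_top
  obtain ⟨g, hg, hg2⟩ := h2
  refine ⟨g, hg, fun j => ?_⟩
  rw [← vv_apply, hg2]

lemma square_part [DecidableEq (Fin r ⊕ Fin S)] (x : Fin r → L) (y : Fin S → L)
    (htop : mext (Submodule.span K (Gset r e x)) y = ⊤) (σ : Fin n → (L →ₐ[K] Ω))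
    (hσ : Function.Injective σ) :
    Submodule.span Ω (gv σ (Sum.elim x y) '' (mo Ω '' (SB r e S))) = ⊤ := by
  rw [Submodule.span_image, eq_top_iff]
  have hsingle : ∀ w : (Fin r ⊕ Fin S) × Fin n, (Pi.single w (1 : Ω)) ∈
      (Submodule.span Ω (mo Ω '' (SB r e S))).map (gv σ (Sum.elim x y)) := by
    rintro ⟨t0, j0⟩
    obtain ⟨g, hg, hg2⟩ := exists_interp x y htop σ hσ j0
    set z : Fin r ⊕ Fin S → L := Sum.elim x y with hz
    let F : MvPolynomial (Fin r ⊕ Fin S) Ω :=
      g * g * (MvPolynomial.X t0 - MvPolynomial.C (pt σ z j0 t0))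
    have hF : gv σ z F = Pi.single (t0, j0) (1 : Ω) := by
      funext w
      obtain ⟨t, j⟩ := w
      rw [gv_apply]
      simp only [F, Derivation.leibniz, map_sub, MvPolynomial.pderiv_X, MvPolynomial.pderiv_C,
        smul_eq_mul, map_add, map_mul, MvPolynomial.eval_X, MvPolynomial.eval_C, sub_zero]
      by_cases hj : j = j0
      · subst hj
        rw [hg2 j, if_pos rfl]
        by_cases ht : t = t0
        · subst ht
          simp
        · have h5 : (Pi.single t0 (1 : MvPolynomial (Fin r ⊕ Fin S) Ω) : _ → _) t = 0 := by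
            rw [Pi.single_eq_of_ne ht]
          have h6 : (Pi.single (t0, j) (1 : Ω) : (Fin r ⊕ Fin S) × Fin n → Ω) (t, j) = 0 := by
            rw [Pi.single_apply, if_neg]
            intro h
            exact ht (congrArg Prod.fst h)
          rw [h6]
          simp [Ne.symm ht]
      · have h6 : (Pi.single (t0, j0) (1 : Ω) : (Fin r ⊕ Fin S) × Fin n → Ω) (t, j) = 0 := by
          rw [Pi.single_apply, if_neg]
          intro h
          exact hj (congrArg Prod.snd h)
        rw [hg2 j, if_neg hj, h6]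
        ring
    have hmem : F ∈ Submodule.span Ω (mo Ω '' (SB r e S)) := by
      have h1 : g * g ∈ Submodule.span Ω (mo Ω '' {α : Fin r ⊕ Fin S → ℕ |
          ∑ i, α (Sum.inl i) ≤ 2 * e ∧ ∀ k, α (Sum.inr k) ≤ 2}) := by
        have h2 : g * g ∈ Submodule.span Ω (mo Ω '' (SM r e S)) * Submodule.span Ω (mo Ω '' (SM r e S)) :=
          Submodule.mul_mem_mul hg hg
        rw [Submodule.span_mul_span] at h2
        refine Submodule.span_mono ?_ h2
        rintro _ ⟨_, ⟨α, hα, rfl⟩, _, ⟨β, hβ, rfl⟩, rfl⟩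
        refine ⟨α + β, ⟨?_, ?_⟩, (mo_mul α β).symm⟩
        · simp only [Pi.add_apply, Finset.sum_add_distrib]
          rw [hα.1, hβ.1]; omega
        · intro k
          have := hα.2 k
          have := hβ.2 k
          simp only [Pi.add_apply]; omega
      have h3' : ∀ G ∈ Submodule.span Ω (mo Ω '' {α : Fin r ⊕ Fin S → ℕ |
          ∑ i, α (Sum.inl i) ≤ 2 * e ∧ ∀ k, α (Sum.inr k) ≤ 2}),
          G * MvPolynomial.X t0 ∈ Submodule.span Ω (mo Ω '' (SB r e S)) := by
        intro G hG
        induction hG using Submodule.span_induction with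
        | mem p hp =>
          obtain ⟨α, hα, rfl⟩ := hp
          apply Submodule.subset_span
          refine ⟨α + Pi.single t0 1, ⟨?_, ?_⟩, ?_⟩
          · simp only [Pi.add_apply, Finset.sum_add_distrib]
            have h4 : ∑ i : Fin r, (Pi.single t0 1 : Fin r ⊕ Fin S → ℕ) (Sum.inl i) ≤ 1 := by
              rcases t0 with i0 | k0
              · have : ∀ i : Fin r, (Pi.single (Sum.inl i0) 1 : Fin r ⊕ Fin S → ℕ) (Sum.inl i) =
                    if i = i0 then 1 else 0 := by
                  intro i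
                  rw [Pi.single_apply]
                  simp
                simp [this]
              · simp
            have := hα.1
            omega
          · intro k
            have h5 := hα.2 k
            have h6 : (Pi.single t0 1 : Fin r ⊕ Fin S → ℕ) (Sum.inr k) ≤ 1 := by
              rw [Pi.single_apply]; split_ifs <;> omega
            simp only [Pi.add_apply]; omega
          · rw [← mo_mul, mo_single]
        | zero => rw [zero_mul]; exact Submodule.zero_mem _
        | add a b ha hb iha ihb => rw [add_mul]; exact Submodule.add_mem _ iha ihb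
        | smul c b hb ih => rw [smul_mul_assoc]; exact Submodule.smul_mem _ _ ih
      have h3 := h3' _ h1
      have h4 : g * g * MvPolynomial.C (pt σ z j0 t0) ∈ Submodule.span Ω (mo Ω '' (SB r e S)) := by
        rw [mul_comm, ← MvPolynomial.smul_eq_C_mul]
        apply Submodule.smul_mem
        refine Submodule.span_mono ?_ h1
        apply Set.image_mono
        rintro α ⟨hα1, hα2⟩
        exact ⟨by omega, fun k => by have := hα2 k; omega⟩
      have : F = g * g * MvPolynomial.X t0 - g * g * MvPolynomial.C (pt σ z j0 t0) := by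
        simp only [F]; ring
      rw [this]
      exact Submodule.sub_mem _ h3 h4
    exact ⟨F, hmem, hF⟩
  intro v _
  have h2 : v = ∑ w, v w • (Pi.single w (1 : Ω) : (Fin r ⊕ Fin S) × Fin n → Ω) := by
    funext w
    simp [Finset.sum_apply, Pi.single_apply]
  rw [h2]
  exact Submodule.sum_mem _ (fun w _ => Submodule.smul_mem _ _ (hsingle w))

theorem exists_exponents (x : Fin r → L) (y : Fin S → L)
    (htop : mext (Submodule.span K (Gset r e x)) y = ⊤) (σ : Fin n → (L →ₐ[K] Ω))
    (hσ : Function.Injective σ) :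
    ∃ α : (Fin r ⊕ Fin S) × Fin n → (Fin r ⊕ Fin S → ℕ),
      (∀ i j, α (Sum.inl i, j) ∈ SA r e S) ∧ (∀ k j, α (Sum.inr k, j) ∈ SB r e S) ∧
      (Matrix.of fun (w c : (Fin r ⊕ Fin S) × Fin n) =>
        gv σ (Sum.elim x y) (mo Ω (α c)) w).det ≠ 0 := by
  classical
  let π : ((Fin r ⊕ Fin S) × Fin n → Ω) →ₗ[Ω] (Fin r × Fin n → Ω) :=
    LinearMap.funLeft Ω Ω (fun w : Fin r × Fin n => (Sum.inl w.1, w.2))
  have hA : Submodule.span Ω (π '' (gv σ (Sum.elim x y) '' (mo Ω '' (SA r e S)))) = ⊤ := by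
    apply span_top_of_dual
    intro f hf
    apply grad_part x y htop σ hσ f
    intro α hα
    exact hf _ ⟨_, ⟨_, ⟨α, hα, rfl⟩, rfl⟩, rfl⟩
  have hB := square_part x y htop σ hσ
  obtain ⟨a, ha, b, hb, hli⟩ := selection (I := Fin r × Fin n) (J := Fin S × Fin n) π
    (gv σ (Sum.elim x y) '' (mo Ω '' (SA r e S))) (gv σ (Sum.elim x y) '' (mo Ω '' (SB r e S)))
    hA hB (by simp) (by simp; ring)
  have ha' : ∀ i, ∃ α ∈ SA r e S, gv σ (Sum.elim x y) (mo Ω α) = a i := by
    intro i
    obtain ⟨_, ⟨α, hα, rfl⟩, h⟩ := ha i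
    exact ⟨α, hα, h⟩
  have hb' : ∀ i, ∃ α ∈ SB r e S, gv σ (Sum.elim x y) (mo Ω α) = b i := by
    intro i
    obtain ⟨_, ⟨α, hα, rfl⟩, h⟩ := hb i
    exact ⟨α, hα, h⟩
  choose αA hαA1 hαA2 using ha'
  choose αB hαB1 hαB2 using hb'
  let E : (Fin r ⊕ Fin S) × Fin n ≃ (Fin r × Fin n) ⊕ (Fin S × Fin n) :=
    Equiv.sumProdDistrib _ _ _
  refine ⟨fun c => Sum.elim αA αB (E c), ?_, ?_, ?_⟩
  · intro i j
    exact hαA1 (i, j)
  · intro k j
    exact hαB1 (k, j)
  · have h1 : LinearIndependent Ω (fun c => Sum.elim a b (E c)) := hli.comp E E.injective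
    have h2 : (fun c => gv σ (Sum.elim x y) (mo Ω (Sum.elim αA αB (E c)))) =
        fun c => Sum.elim a b (E c) := by
      funext c
      rcases E c with w | w
      · exact hαA2 w
      · exact hαB2 w
    intro hdet
    have h3 : LinearIndependent Ω (Matrix.of fun (w c : (Fin r ⊕ Fin S) × Fin n) =>
        gv σ (Sum.elim x y) (mo Ω (Sum.elim αA αB (E c))) w).col := by
      have : (Matrix.of fun (w c : (Fin r ⊕ Fin S) × Fin n) =>
        gv σ (Sum.elim x y) (mo Ω (Sum.elim αA αB (E c))) w).col =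
        fun c => gv σ (Sum.elim x y) (mo Ω (Sum.elim αA αB (E c))) := rfl
      rw [this, h2]
      exact h1
    have h4 := Matrix.linearIndependent_cols_iff_isUnit.1 h3
    rw [Matrix.isUnit_iff_isUnit_det, hdet] at h4
    exact not_isUnit_zero h4

end

end Pool.Agent.Helper58.NF
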