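import Mathlib
import Pool.Agent.Helper58.NF.Sel

set_option autoImplicit false

namespace Pool.Agent.Helper58.NF

open Module NumberField Pool.Agent.helper22

section

variable {K L : Type*} [Field K] [NumberField K] [Field L] [NumberField L] [Algebra K L]

omit [NumberField K] in
lemma house_smul_nat (c : ℕ) (w : L) : house (((c : ℕ) : K) • w) = c * house w := by
  have : ((c : ℕ) : K) • w = (c : L) * w := by
    rw [Algebra.smul_def, map_natCast]
  rw [this, house_nat_mul]

omit [NumberField K] in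
lemma house_comb {m : ℕ} (c : Fin m → ℕ) (w : Fin m → L) (B : ℕ) (R : ℝ)
    (hc : ∀ l, c l ≤ B) (hw : ∀ l, house (w l) ≤ R) :
    house (∑ l, ((c l : ℕ) : K) • w l) ≤ m * (B * R) := by
  refine (house_sum_le_sum_house _ _).trans ?_
  calc ∑ l, house (((c l : ℕ) : K) • w l) ≤ ∑ _l : Fin m, (B * R) := by
        apply Finset.sum_le_sum
        intro l _
        rw [house_smul_nat]
        have h1 : (c l : ℝ) ≤ B := by exact_mod_cast hc l
        have h2 := house_nonneg (w l)
        exact mul_le_mul h1 (hw l) h2 (by positivity)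
    _ = m * (B * R) := by simp

omit [NumberField K] [NumberField L] in
lemma integral_comb {m : ℕ} (c : Fin m → ℕ) (w : Fin m → L) (hw : ∀ l, IsIntegral ℤ (w l)) :
    IsIntegral ℤ (∑ l, ((c l : ℕ) : K) • w l) := by
  apply IsIntegral.sum
  intro l _
  have : ((c l : ℕ) : K) • w l = (c l : L) * w l := by
    rw [Algebra.smul_def, map_natCast]
  rw [this]
  exact IsIntegral.mul (by exact_mod_cast isIntegral_algebraMap (R := ℤ) (A := L) (x := (c l : ℤ))) (hw l)

omit [NumberField K] [NumberField L] in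
lemma adjoin_top {r e S : ℕ} (x : Fin r → L) (y : Fin S → L)
    (htop : mext (Submodule.span K (Gset r e x)) y = ⊤) :
    IntermediateField.adjoin K (Set.range (Sum.elim x y)) = ⊤ := by
  rw [eq_top_iff]
  intro v _
  have h1 : (fun _ : Unit => v) ∈ Submodule.span K {v : Unit → L | ∃ α ∈ SM r e S,
      v = fun _ => ∏ t, (Sum.elim x y) t ^ α t} := by
    rw [value_span x y htop]; exact Submodule.mem_top
  have h2 : ∀ w ∈ Submodule.span K {v : Unit → L | ∃ α ∈ SM r e S,
      v = fun _ => ∏ t, (Sum.elim x y) t ^ α t},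
      w () ∈ IntermediateField.adjoin K (Set.range (Sum.elim x y)) := by
    intro w hw
    induction hw using Submodule.span_induction with
    | mem w hw =>
      obtain ⟨α, _, rfl⟩ := hw
      apply prod_mem
      intro t _
      apply pow_mem
      exact IntermediateField.subset_adjoin K _ ⟨t, rfl⟩
    | zero => exact zero_mem _
    | add a b _ _ iha ihb => exact add_mem iha ihb
    | smul c b _ ih => exact IntermediateField.smul_mem _ ih
  exact h2 _ h1

end

/-- constant for the main variables -/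
noncomputable def C1 (δ n r e q : ℕ) : ℝ := q * (((e + 1) * (r * q) : ℕ) * CM (δ * n))

/-- constant for the auxiliary variables -/
noncomputable def C2 (δ n r : ℕ) : ℝ := n * (((r + 1) * n : ℕ) * CM (δ * n) ^ 2)

theorem field_data (K L : Type*) [Field K] [NumberField K] [Field L] [NumberField L] [Algebra K L]
    [Algebra K ℂ] (n k r e s : ℕ) (hn : finrank K L = n) (hk : k < n) (hr : 0 < r)
    (hcomb : r * (k + 1) ≤ (r + e - 1).choose e)
    (hs : (r + 1) * n * n ^ s < (k + 1) * (n + (k + 1)) ^ s)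
    {X : ℝ} (hX : 1 ≤ X) (hD : (|discr L| : ℝ) ≤ X)
    (σ : Fin n → (L →ₐ[K] ℂ)) (hσ : Function.Injective σ) :
    ∃ z : Fin r ⊕ Fin (s + 1) → L,
      (∀ t, IsIntegral ℤ (z t)) ∧
      (∀ i, house (z (Sum.inl i)) ≤ C1 (finrank ℚ K) n r e (k + 1) *
        X ^ (1 / (2 * (finrank ℚ K : ℝ) * ((n : ℝ) - k)))) ∧
      (∀ i, house (z (Sum.inr i)) ≤ C2 (finrank ℚ K) n r * X ^ (2 / ((finrank ℚ K : ℝ) * n))) ∧
      IntermediateField.adjoin K (Set.range z) = ⊤ ∧
      ∃ α : (Fin r ⊕ Fin (s + 1)) × Fin n → (Fin r ⊕ Fin (s + 1) → ℕ),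
        (∀ i j, α (Sum.inl i, j) ∈ SA r e (s + 1)) ∧ (∀ i j, α (Sum.inr i, j) ∈ SB r e (s + 1)) ∧
        (Matrix.of fun (w c : (Fin r ⊕ Fin (s + 1)) × Fin n) => gv σ z (mo ℂ (α c)) w).det ≠ 0 := by
  have hNn : finrank ℚ L = finrank ℚ K * n := by rw [← hn, Module.finrank_mul_finrank]
  -- small elements
  have h1 := small_span K L k (by rw [hn]; exact hk) hX hD
  rw [hn, hNn] at h1
  obtain ⟨w, hw1, hw2⟩ := exists_indep (K := K) _ (k + 1) (Nat.succ_le_of_lt h1)
  obtain ⟨u, hu1, hu2⟩ := small_basis K L hX hD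
  rw [hNn] at hu2
  obtain ⟨u', hu'⟩ : ∃ u' : Fin n → L, LinearIndependent K u' ∧ ∀ i, IsIntegral ℤ (u' i) ∧
      house (u' i) ≤ CM (finrank ℚ K * n) ^ 2 * X ^ (2 / ((finrank ℚ K : ℝ) * (n : ℝ))) := by
    subst hn
    exact ⟨u, hu1, hu2⟩
  have hspan : Submodule.span K (Set.range u') = ⊤ := by
    apply hu'.1.span_eq_top_of_card_eq_finrank'
    rw [Fintype.card_fin, hn]
  obtain ⟨γ, hγ⟩ := exists_gamma σ hσ hn w hw2
  obtain ⟨c, hc1, a, ha, hdet⟩ := exists_x (K := K) r e (k + 1) hr hcomb w γ hγ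
  set x : Fin r → L := fun i => ∑ l, (c (i, l) : K) • w l with hx
  have hsep := sep_G hr x γ a ha hdet
  have hfr : finrank K (Option (Fin r) → L) = (r + 1) * n := by
    rw [Module.finrank_pi_fintype]
    simp [hn]
  obtain ⟨c', hc'1, htop⟩ := grow_top u' hspan hn _ hsep.good s (by rw [hfr]; exact hs)
  set y : Fin (s + 1) → L := fun i => ∑ l, (c' i l : K) • u' l with hy
  obtain ⟨α, hα1, hα2, hα3⟩ := exists_exponents x y htop σ hσ
  refine ⟨Sum.elim x y, ?_, ?_, ?_, adjoin_top x y htop, α, hα1, hα2, hα3⟩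
  · rintro (i | i)
    · exact integral_comb _ _ (fun l => (hw1 l).1)
    · exact integral_comb _ _ (fun l => (hu'.2 l).1)
  · intro i
    refine (house_comb (K := K) (fun l => c (i, l)) w ((e + 1) * (r * (k + 1))) _
      (fun l => hc1 (i, l)) (fun l => (hw1 l).2)).trans (le_of_eq ?_)
    unfold C1
    push_cast
    ring
  · intro i
    refine (house_comb (K := K) (fun l => c' i l) u' ((r + 1) * n) _
      (fun l => by rw [← hfr]; exact hc'1 i l) (fun l => (hu'.2 l).2)).trans (le_of_eq ?_)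
    unfold C2
    push_cast
    ring

end Pool.Agent.Helper58.NF
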