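import Mathlib

set_option autoImplicit false

namespace Pool.Agent.Helper58.NF

open MvPolynomial Filter Topology

variable {τ : Type} [Fintype τ]

/-- the derivative of a polynomial -/
noncomputable def dpoly (p : MvPolynomial τ ℂ) (z : τ → ℂ) : (τ → ℂ) →L[ℂ] ℂ :=
  ∑ j, eval z (pderiv j p) • (ContinuousLinearMap.proj j : (τ → ℂ) →L[ℂ] ℂ)

lemma dpoly_apply (p : MvPolynomial τ ℂ) (z w : τ → ℂ) :
    dpoly p z w = ∑ j, eval z (pderiv j p) * w j := by
  simp [dpoly]

lemma hasStrictFDerivAt_eval (p : MvPolynomial τ ℂ) (z : τ → ℂ) :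
    HasStrictFDerivAt (fun w : τ → ℂ => eval w p) (dpoly p z) z := by
  classical
  induction p using MvPolynomial.induction_on with
  | C a =>
    have e : (fun w : τ → ℂ => eval w (C a : MvPolynomial τ ℂ)) = fun _ => a := by
      funext w; simp
    rw [e]
    refine (hasStrictFDerivAt_const a z).congr_fderiv ?_
    ext w
    rw [dpoly_apply]
    simp
  | add p q hp hq =>
    have e : (fun w : τ → ℂ => eval w (p + q)) = (fun w => eval w p) + (fun w => eval w q) := by
      funext w; simp
    rw [e]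
    refine (hp.add hq).congr_fderiv ?_
    ext w
    rw [dpoly_apply, _root_.add_apply, dpoly_apply, dpoly_apply, ← Finset.sum_add_distrib]
    apply Finset.sum_congr rfl
    intro j _
    rw [map_add, map_add, add_mul]
  | mul_X p i hp =>
    have e : (fun w : τ → ℂ => eval w (p * X i)) = (fun w => eval w p) * (fun w => w i) := by
      funext w; simp
    have h1 : HasStrictFDerivAt (fun w : τ → ℂ => w i)
        (ContinuousLinearMap.proj i : (τ → ℂ) →L[ℂ] ℂ) z :=
      (ContinuousLinearMap.proj i : (τ → ℂ) →L[ℂ] ℂ).hasStrictFDerivAt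
    rw [e]
    refine (hp.mul h1).congr_fderiv ?_
    ext w
    rw [dpoly_apply, _root_.add_apply, _root_.smul_apply,
      _root_.smul_apply, dpoly_apply, ContinuousLinearMap.proj_apply]
    have e2 : ∀ j, eval z (pderiv j (p * X i)) * w j =
        eval z p * (if i = j then w j else 0) + z i * (eval z (pderiv j p) * w j) := by
      intro j
      rw [pderiv_mul, pderiv_X]
      simp only [map_add, map_mul, eval_X, Pi.single_apply]
      split_ifs with h1
      · simp; ring
      · simp; ring
    rw [Finset.sum_congr rfl (fun j _ => e2 j), Finset.sum_add_distrib, ← Finset.mul_sum,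
      ← Finset.mul_sum]
    simp

/-- the polynomial map -/
noncomputable def pmap (T : τ → MvPolynomial τ ℂ) (z : τ → ℂ) : τ → ℂ := fun i => eval z (T i)

/-- its Jacobian matrix -/
noncomputable def jac (T : τ → MvPolynomial τ ℂ) (z : τ → ℂ) : Matrix τ τ ℂ :=
  Matrix.of fun i j => eval z (pderiv j (T i))

lemma exists_equiv [DecidableEq τ] (T : τ → MvPolynomial τ ℂ) (z : τ → ℂ) (h : (jac T z).det ≠ 0) :
    ∃ e : (τ → ℂ) ≃L[ℂ] (τ → ℂ), HasStrictFDerivAt (pmap T) (e : (τ → ℂ) →L[ℂ] (τ → ℂ)) z := by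
  have hinv : Invertible (jac T z) := Matrix.invertibleOfIsUnitDet _ (isUnit_iff_ne_zero.2 h)
  let e0 : (τ → ℂ) ≃ₗ[ℂ] (τ → ℂ) := Matrix.toLinearEquiv' (jac T z) hinv
  refine ⟨e0.toContinuousLinearEquiv, ?_⟩
  rw [hasStrictFDerivAt_pi']
  intro i
  refine (hasStrictFDerivAt_eval (T i) z).congr_fderiv ?_
  ext w
  rw [dpoly_apply]
  have h2 : (e0.toContinuousLinearEquiv : (τ → ℂ) →L[ℂ] (τ → ℂ)) w = (jac T z).mulVec w := by
    rfl
  rw [ContinuousLinearMap.comp_apply, h2]
  simp [jac, Matrix.mulVec, dotProduct]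

/-- a nontrivial relation -/
lemma exists_relation (T : τ → MvPolynomial τ ℂ) (l : τ) :
    ∃ Q : Polynomial (MvPolynomial τ ℂ), Q ≠ 0 ∧
      ∀ z : τ → ℂ, ((Q.map (eval (pmap T z))).eval (z l)) = 0 := by
  classical
  let x : Option τ → MvPolynomial τ ℂ := fun o => o.elim (X l) T
  have hdep : ¬ AlgebraicIndependent ℂ x := by
    intro hind
    have h1 := hind.cardinalMk_le_trdeg
    rw [MvPolynomial.trdeg_of_isDomain] at h1
    simp only [Cardinal.mk_fintype, Fintype.card_option, Cardinal.lift_id] at h1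
    have h2 : Fintype.card τ + 1 ≤ Fintype.card τ := by exact_mod_cast h1
    omega
  rw [algebraicIndependent_iff] at hdep
  push Not at hdep
  obtain ⟨p, hp, hp0⟩ := hdep
  refine ⟨optionEquivLeft ℂ τ p, ?_, ?_⟩
  · intro h
    apply hp0
    have := (optionEquivLeft ℂ τ).injective (h.trans (map_zero _).symm)
    exact this
  · intro z
    rw [← optionEquivLeft_elim_eval]
    have h1 : eval z (aeval x p) = 0 := by rw [hp, map_zero]
    have h2 : eval z (aeval x p) = eval (fun o => eval z (x o)) p := by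
      have h3 := comp_aeval_apply (f := x) (aeval z : MvPolynomial τ ℂ →ₐ[ℂ] ℂ) p
      simpa [aeval_eq_eval] using h3
    rw [h2] at h1
    rw [← h1]
    congr 2
    funext o
    rcases o with _ | o
    · simp [x]
    · simp [x, pmap]

/-- Nondegenerate fibres of a polynomial map `ℂ^τ → ℂ^τ` are uniformly bounded. -/
theorem fibre_bound (T : τ → MvPolynomial τ ℂ) [DecidableEq τ] :
    ∃ D : ℕ, ∀ t : τ → ℂ, {z : τ → ℂ | pmap T z = t ∧ (jac T z).det ≠ 0}.Finite ∧
      {z : τ → ℂ | pmap T z = t ∧ (jac T z).det ≠ 0}.ncard ≤ D := by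
  choose Q hQ0 hQ using fun l => exists_relation T l
  let q : MvPolynomial τ ℂ := ∏ l, (Q l).leadingCoeff
  have hq : q ≠ 0 := Finset.prod_ne_zero_iff.2 fun l _ => Polynomial.leadingCoeff_ne_zero.2 (hQ0 l)
  let D : ℕ := ∏ l, (Q l).natDegree
  -- generic fibres
  have hgen : ∀ t' : τ → ℂ, eval t' q ≠ 0 → ∀ S : Finset (τ → ℂ), (∀ z ∈ S, pmap T z = t') →
      S.card ≤ D := by
    intro t' ht' S hS
    have hlc : ∀ l, eval t' (Q l).leadingCoeff ≠ 0 := by
      intro l
      rw [map_prod] at ht'
      exact Finset.prod_ne_zero_iff.1 ht' l (Finset.mem_univ l)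
    have hne : ∀ l, (Q l).map (eval t') ≠ 0 := by
      intro l h0
      apply hlc l
      have := congrArg (fun p => Polynomial.coeff p (Q l).natDegree) h0
      simpa [Polynomial.coeff_map] using this
    have hsub : S ⊆ Fintype.piFinset (fun l => ((Q l).map (eval t')).roots.toFinset) := by
      intro z hz
      rw [Fintype.mem_piFinset]
      intro l
      rw [Multiset.mem_toFinset, Polynomial.mem_roots (hne l), Polynomial.IsRoot.def, ← hS z hz]
      exact hQ l z
    refine (Finset.card_le_card hsub).trans ?_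
    rw [Fintype.card_piFinset]
    refine Finset.prod_le_prod (fun _ _ => Nat.zero_le _) ?_
    intro l _
    calc ((Q l).map (eval t')).roots.toFinset.card ≤ Multiset.card ((Q l).map (eval t')).roots :=
          Multiset.toFinset_card_le _
      _ ≤ ((Q l).map (eval t')).natDegree := Polynomial.card_roots' _
      _ ≤ (Q l).natDegree := Polynomial.natDegree_map_le
  -- nonvanishing points of q near any t
  have hdense : ∀ (t : τ → ℂ) (U : Set (τ → ℂ)), U ∈ 𝓝 t → ∃ t' ∈ U, eval t' q ≠ 0 := by
    intro t U hU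
    by_contra hcon
    push Not at hcon
    apply hq
    obtain ⟨ε, hε, hball⟩ := Metric.mem_nhds_iff.1 hU
    refine MvPolynomial.funext_set (fun i => Metric.ball (t i) ε) (fun i => ?_) ?_
    · exact infinite_of_mem_nhds (t i) (Metric.ball_mem_nhds _ hε)
    · intro x hx
      have hx' : x ∈ Metric.ball t ε := by
        rw [Metric.mem_ball, dist_pi_lt_iff hε]
        intro i
        exact hx i (Set.mem_univ i)
      simp only [map_zero]
      exact hcon x (hball hx')
  have hall : ∀ (t : τ → ℂ) (S : Finset (τ → ℂ)),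
      (∀ z ∈ S, pmap T z = t ∧ (jac T z).det ≠ 0) → S.card ≤ D := by
    intro t S hS
    have hloc : ∀ z ∈ S, ∃ g : (τ → ℂ) → (τ → ℂ), Tendsto g (𝓝 t) (𝓝 z) ∧
        ∀ᶠ t' in 𝓝 t, pmap T (g t') = t' := by
      intro z hz
      obtain ⟨h1, h2⟩ := hS z hz
      obtain ⟨e, he⟩ := exists_equiv T z h2
      refine ⟨he.localInverse (pmap T) e z, ?_, ?_⟩
      · have := he.localInverse_tendsto
        rwa [h1] at this
      · have := he.eventually_right_inverse
        rwa [h1] at this
    choose! g hg1 hg2 using hloc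
    have hev : ∀ᶠ t' in 𝓝 t, (∀ z ∈ S, pmap T (g z t') = t') ∧
        ∀ z ∈ S, ∀ z' ∈ S, z ≠ z' → g z t' ≠ g z' t' := by
      apply Filter.Eventually.and
      · exact (Finset.eventually_all S).2 (fun z hz => hg2 z hz)
      · refine (Finset.eventually_all S).2 (fun z hz => (Finset.eventually_all S).2 (fun z' hz' => ?_))
        by_cases hne : z = z'
        · exact Filter.Eventually.of_forall (fun _ h => absurd hne h)
        · have h3 : (Set.diagonal (τ → ℂ))ᶜ ∈ 𝓝 (z, z') :=
            isClosed_diagonal.isOpen_compl.mem_nhds (by simpa using hne)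
          filter_upwards [((hg1 z hz).prodMk_nhds (hg1 z' hz')).eventually h3] with t' ht' _
          simpa using ht'
    obtain ⟨t', ht', hqt'⟩ := hdense t _ hev
    have h1 := hgen t' hqt' (S.image (fun z => g z t')) (by
      intro w hw
      obtain ⟨z, hz, rfl⟩ := Finset.mem_image.1 hw
      exact ht'.1 z hz)
    rwa [Finset.card_image_of_injOn] at h1
    intro z hz z' hz' heq
    by_contra hne
    exact ht'.2 z hz z' hz' hne heq
  refine ⟨D, fun t => ?_⟩
  have hfin : {z : τ → ℂ | pmap T z = t ∧ (jac T z).det ≠ 0}.Finite := by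
    by_contra hinf
    obtain ⟨S, hS1, hS2⟩ := Set.Infinite.exists_subset_card_eq hinf (D + 1)
    have := hall t S (fun z hz => hS1 hz)
    omega
  refine ⟨hfin, ?_⟩
  rw [Set.ncard_eq_toFinset_card _ hfin]
  exact hall t _ (fun z hz => (Set.Finite.mem_toFinset hfin).1 hz)

end Pool.Agent.Helper58.NF
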