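import Mathlib
import Pool.Agent.Helper58.NF.Data
import Pool.Agent.Helper58.NF.Fibre
import Pool.Agent.helper22.Final

set_option autoImplicit false

namespace Pool.Agent.Helper58.NF

open Module NumberField Pool.Agent.helper22 MvPolynomial

lemma house_trace_le (K L : Type*) [Field K] [NumberField K] [Field L] [NumberField L] [Algebra K L]
    (x : L) : house (Algebra.trace K L x) ≤ finrank K L * house x := by
  rw [house_le_iff]
  intro φ
  let := φ.toAlgebra
  have h1 : φ (Algebra.trace K L x) = ∑ σ : L →ₐ[K] ℂ, σ x := trace_eq_sum_embeddings ℂ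
  rw [h1]
  refine (norm_sum_le _ _).trans ?_
  calc ∑ σ : L →ₐ[K] ℂ, ‖σ x‖ ≤ ∑ _σ : L →ₐ[K] ℂ, house x := by
        apply Finset.sum_le_sum
        intro σ _
        exact (house_le_iff x (house x)).1 le_rfl (σ : L →+* ℂ)
    _ = finrank K L * house x := by
        rw [Finset.sum_const, Finset.card_univ, AlgHom.card, nsmul_eq_mul]

section

variable {τ : Type} [Fintype τ] {n : ℕ}

/-- the trace polynomial attached to a monomial -/
noncomputable def Tpoly (n : ℕ) (α : τ × Fin n → (τ → ℕ)) (c : τ × Fin n) :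
    MvPolynomial (τ × Fin n) ℂ :=
  ∑ j : Fin n, rename (fun t => (t, j)) (mo ℂ (α c))

lemma eval_Tpoly (α : τ × Fin n → (τ → ℕ)) (c : τ × Fin n) (p : τ × Fin n → ℂ) :
    eval p (Tpoly n α c) = ∑ j, ∏ t, p (t, j) ^ α c t := by
  rw [Tpoly, map_sum]
  apply Finset.sum_congr rfl
  intro j _
  rw [eval_rename, eval_mo]
  rfl

lemma eval_pderiv_Tpoly (α : τ × Fin n → (τ → ℕ)) (c : τ × Fin n) (p : τ × Fin n → ℂ)
    (x : τ × Fin n) :
    eval p (pderiv x (Tpoly n α c)) = eval (fun t => p (t, x.2)) (pderiv x.1 (mo ℂ (α c))) := by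
  classical
  obtain ⟨t, j⟩ := x
  rw [Tpoly, map_sum, map_sum, Finset.sum_eq_single j]
  · have hinj : Function.Injective (fun t : τ => (t, j)) := fun a b h => (Prod.mk.inj h).1
    have h1 := pderiv_rename hinj t (mo ℂ (α c))
    rw [h1, eval_rename]
    rfl
  · intro j' _ hj'
    have h1 : pderiv (t, j) (rename (fun t => (t, j')) (mo ℂ (α c))) = 0 := by
      apply pderiv_eq_zero_of_notMem_vars
      intro hmem
      have h2 := vars_rename (fun t : τ => (t, j')) (mo ℂ (α c)) hmem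
      obtain ⟨t', _, ht'⟩ := Finset.mem_image.1 h2
      exact hj' (Prod.mk.inj ht').2
    rw [h1, map_zero]
  · simp

end

/-- enumeration of the embeddings with a prescribed first element -/
lemma exists_enum {X : Type*} [Fintype X] {n : ℕ} (hn : Fintype.card X = n) (hn0 : 0 < n) (x0 : X) :
    ∃ σ : Fin n → X, Function.Injective σ ∧ Function.Surjective σ ∧ σ ⟨0, hn0⟩ = x0 := by
  classical
  let e : X ≃ Fin n := Fintype.equivFinOfCardEq hn
  let e' := e.trans (Equiv.swap (e x0) ⟨0, hn0⟩)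
  refine ⟨e'.symm, e'.symm.injective, e'.symm.surjective, ?_⟩
  rw [Equiv.symm_apply_eq]
  simp [e']

lemma house_prod_pow_le {L : Type*} [Field L] [NumberField L] {ι : Type*} (s : Finset ι) (z : ι → L)
    (α : ι → ℕ) (B : ℝ) (hz : ∀ i ∈ s, house (z i) ≤ B) (m : ℕ)
    (hB : 1 ≤ B) (hm : ∑ i ∈ s, α i ≤ m) : house (∏ i ∈ s, z i ^ α i) ≤ B ^ m := by
  classical
  have h1 : ∀ t : Finset ι, (∀ i ∈ t, house (z i) ≤ B) →
      house (∏ i ∈ t, z i ^ α i) ≤ B ^ (∑ i ∈ t, α i) := by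
    intro t
    induction t using Finset.induction_on with
    | empty =>
      intro _
      have : house (1 : L) = 1 := by
        have := house_intCast (K := L) 1
        simpa using this
      simp [this]
    | insert a t ha ih =>
      intro ht
      rw [Finset.prod_insert ha, Finset.sum_insert ha, pow_add]
      refine (house_mul_le _ _).trans ?_
      apply mul_le_mul
      · refine (house_pow_le _ _).trans ?_
        exact pow_le_pow_left₀ (house_nonneg _) (ht a (Finset.mem_insert_self a t)) _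
      · exact ih (fun i hi => ht i (Finset.mem_insert_of_mem hi))
      · exact house_nonneg _
      · positivity
  exact (h1 s hz).trans (pow_le_pow_right₀ hB hm)

lemma house_prod_A {L : Type*} [Field L] [NumberField L] {r e S : ℕ} (z : Fin r ⊕ Fin S → L)
    (α : Fin r ⊕ Fin S → ℕ) (hα : α ∈ SA r e S) {PA PB : ℝ} (hPA : 1 ≤ PA) (hPB : 1 ≤ PB)
    (hA : ∀ i, house (z (Sum.inl i)) ≤ PA) (hB : ∀ i, house (z (Sum.inr i)) ≤ PB) :
    house (∏ t, z t ^ α t) ≤ PA ^ (e + 1) * PB ^ S := by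
  rw [Fintype.prod_sum_type]
  refine (house_mul_le _ _).trans ?_
  apply mul_le_mul
  · exact house_prod_pow_le Finset.univ (fun i => z (Sum.inl i)) (fun i => α (Sum.inl i)) PA
      (fun i _ => hA i) (e + 1) hPA hα.1.le
  · apply house_prod_pow_le Finset.univ (fun i => z (Sum.inr i)) (fun i => α (Sum.inr i)) PB
      (fun i _ => hB i) S hPB
    calc ∑ i, α (Sum.inr i) ≤ ∑ _i : Fin S, 1 := Finset.sum_le_sum (fun i _ => hα.2 i)
      _ = S := by simp
  · exact house_nonneg _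
  · positivity

lemma house_prod_B {L : Type*} [Field L] [NumberField L] {r e S : ℕ} (z : Fin r ⊕ Fin S → L)
    (α : Fin r ⊕ Fin S → ℕ) (hα : α ∈ SB r e S) {PB : ℝ} (hPB : 1 ≤ PB)
    (hz : ∀ i, house (z i) ≤ PB) :
    house (∏ t, z t ^ α t) ≤ PB ^ (2 * e + 1 + 3 * S) := by
  apply house_prod_pow_le Finset.univ z α PB (fun i _ => hz i) _ hPB
  rw [Fintype.sum_sum_type]
  apply add_le_add hα.1
  calc ∑ i, α (Sum.inr i) ≤ ∑ _i : Fin S, 3 := Finset.sum_le_sum (fun i _ => hα.2 i)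
    _ = 3 * S := by simp [mul_comm]

lemma trace_prod {K L : Type*} [Field K] [NumberField K] [Field L] [NumberField L] [Algebra K L]
    [Algebra K ℂ] {τ : Type*} [Fintype τ] {n : ℕ} (σ : Fin n → (L →ₐ[K] ℂ))
    (h1 : Function.Injective σ) (h2 : Function.Surjective σ) (z : τ → L) (α : τ → ℕ) :
    algebraMap K ℂ (Algebra.trace K L (∏ t, z t ^ α t)) = ∑ j, ∏ t, (σ j (z t)) ^ α t := by
  have hb : Function.Bijective σ := ⟨h1, h2⟩
  rw [trace_eq_sum_embeddings ℂ, ← hb.sum_comp (fun f => f (∏ t, z t ^ α t))]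
  apply Finset.sum_congr rfl
  intro j _
  rw [map_prod]
  simp_rw [map_pow]

lemma box_card (K : Type) [Field K] [NumberField K] (r S n : ℕ) (BA BB : ℝ) :
    (Fintype.piFinset (fun c : (Fin r ⊕ Fin S) × Fin n =>
      (finite_house_le K (Sum.elim (fun _ => BA) (fun _ => BB) c.1)).toFinset)).card =
      cnt K BA ^ (r * n) * cnt K BB ^ (S * n) := by
  have hX : ∀ T : ℝ, (finite_house_le K T).toFinset.card = cnt K T := fun T =>
    (Set.ncard_eq_toFinset_card _ (finite_house_le K T)).symm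
  rw [Fintype.card_piFinset, Fintype.prod_prod_type, Fintype.prod_sum_type]
  congr 1
  · calc _ = ∏ _i : Fin r, ∏ _j : Fin n, cnt K BA :=
        Finset.prod_congr rfl (fun i _ => Finset.prod_congr rfl (fun j _ => hX BA))
      _ = _ := by
        simp only [Finset.prod_const, Finset.card_univ, Fintype.card_fin]
        rw [← pow_mul, mul_comm n r]
  · calc _ = ∏ _i : Fin S, ∏ _j : Fin n, cnt K BB :=
        Finset.prod_congr rfl (fun i _ => Finset.prod_congr rfl (fun j _ => hX BB))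
      _ = _ := by
        simp only [Finset.prod_const, Finset.card_univ, Fintype.card_fin]
        rw [← pow_mul, mul_comm n S]

theorem count_core (K : Type) [Field K] [NumberField K] (n k r e s : ℕ) (hk4 : 4 * k ≤ 3 * n)
    (hk : k < n) (hr : 0 < r) (hcomb : r * (k + 1) ≤ (r + e - 1).choose e)
    (hs : (r + 1) * n * n ^ s < (k + 1) * (n + (k + 1)) ^ s) :
    ∃ N : ℕ, ∃ M : ℝ, 1 ≤ M ∧ ∀ X : ℝ, 1 ≤ X →
      Set.ncard {L : IntermediateField K (AlgebraicClosure K) | finrank K L = n ∧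
        ∃ h : NumberField L, ((|@NumberField.discr L _ h| : ℤ) : ℝ) ≤ X} ≤
        N * (cnt K (n * ((M * X ^ (1 / (2 * (finrank ℚ K : ℝ) * ((n : ℝ) - k)))) ^ (e + 1) *
            (M * X ^ (2 / ((finrank ℚ K : ℝ) * n))) ^ (s + 1))) ^ (r * n) *
          cnt K (n * (M * X ^ (2 / ((finrank ℚ K : ℝ) * n))) ^ (2 * e + 1 + 3 * (s + 1))) ^
            ((s + 1) * n)) := by
  classical
  have hn0 : 0 < n := by omega
  set δ := finrank ℚ K with hδ
  have hδ0 : 0 < δ := Module.finrank_pos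
  obtain ⟨φ0⟩ : Nonempty (K →+* ℂ) := inferInstance
  let := φ0.toAlgebra
  let Φ : AlgebraicClosure K →ₐ[K] ℂ := IsAlgClosed.lift
  let AT := (Fin r ⊕ Fin (s + 1)) × Fin n → ((Fin r ⊕ Fin (s + 1)) → Fin (2 * e + 4))
  let nat : AT → ((Fin r ⊕ Fin (s + 1)) × Fin n → ((Fin r ⊕ Fin (s + 1)) → ℕ)) :=
    fun A c t => (A c t : ℕ)
  choose D hD using fun A : AT => fibre_bound (Tpoly n (nat A))
  set a : ℝ := 1 / (2 * (δ : ℝ) * ((n : ℝ) - k)) with ha
  set b : ℝ := 2 / ((δ : ℝ) * n) with hb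
  have hδr : (0 : ℝ) < δ := by exact_mod_cast hδ0
  have hnr : (0 : ℝ) < n := by exact_mod_cast hn0
  have hkn : (0 : ℝ) < (n : ℝ) - k := by
    have : (k : ℝ) < n := by exact_mod_cast hk
    linarith
  have ha0 : 0 < a := by rw [ha]; positivity
  have hb0 : 0 < b := by rw [hb]; positivity
  have hab : a ≤ b := by
    rw [ha, hb, div_le_div_iff₀ (by positivity) (by positivity)]
    have h1 : (4 : ℝ) * k ≤ 3 * n := by exact_mod_cast hk4
    nlinarith
  let M : ℝ := max (max (C1 δ n r e (k + 1)) (C2 δ n r)) 1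
  have hM1 : 1 ≤ M := le_max_right _ _
  have hMC1 : C1 δ n r e (k + 1) ≤ M := (le_max_left _ _).trans (le_max_left _ _)
  have hMC2 : C2 δ n r ≤ M := (le_max_right _ _).trans (le_max_left _ _)
  let BA : ℝ → ℝ := fun X => n * ((M * X ^ a) ^ (e + 1) * (M * X ^ b) ^ (s + 1))
  let BB : ℝ → ℝ := fun X => n * (M * X ^ b) ^ (2 * e + 1 + 3 * (s + 1))
  let bd : ℝ → (Fin r ⊕ Fin (s + 1)) × Fin n → ℝ := fun X c =>
    Sum.elim (fun _ => BA X) (fun _ => BB X) c.1
  let Box : ℝ → Finset ((Fin r ⊕ Fin (s + 1)) × Fin n → 𝓞 K) := fun X =>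
    Fintype.piFinset (fun c => (finite_house_le K (bd X c)).toFinset)
  let alg : ((Fin r ⊕ Fin (s + 1)) × Fin n → 𝓞 K) → ((Fin r ⊕ Fin (s + 1)) × Fin n → ℂ) :=
    fun t c => algebraMap K ℂ (t c : K)
  let rec' : ((Fin r ⊕ Fin (s + 1)) × Fin n → ℂ) → IntermediateField K (AlgebraicClosure K) :=
    fun p => IntermediateField.adjoin K {x | ∃ t, Φ x = p (t, ⟨0, hn0⟩)}
  let Wf : AT × ((Fin r ⊕ Fin (s + 1)) × Fin n → 𝓞 K) →
      Finset (IntermediateField K (AlgebraicClosure K)) :=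
    fun w => ((hD w.1 (alg w.2)).1.toFinset).image rec'
  let W : ℝ → Finset (IntermediateField K (AlgebraicClosure K)) := fun X =>
    ((Finset.univ : Finset AT) ×ˢ Box X).biUnion Wf
  have hcardW : ∀ X, (W X).card ≤ (Fintype.card AT * (Box X).card) * ∑ A, D A := by
    intro X
    refine (Finset.card_biUnion_le_card_mul _ _ (∑ A, D A) ?_).trans ?_
    · intro w _
      refine Finset.card_image_le.trans ?_
      rw [← Set.ncard_eq_toFinset_card _ (hD w.1 (alg w.2)).1]
      exact ((hD w.1 (alg w.2)).2).trans (Finset.single_le_sum (fun _ _ => Nat.zero_le _)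
        (Finset.mem_univ w.1))
    · rw [Finset.card_product, Finset.card_univ]
  -- every field is reached
  have hreach : ∀ X : ℝ, 1 ≤ X → {L : IntermediateField K (AlgebraicClosure K) | finrank K L = n ∧
        ∃ h : NumberField L, ((|@NumberField.discr L _ h| : ℤ) : ℝ) ≤ X} ⊆ (W X : Set _) := by
    intro X hX
    rintro L ⟨hLn, hLnf, hLd⟩
    have hX0 : (0 : ℝ) < X := by linarith
    let L' : Type := L
    have hσ : ∃ σ : Fin n → (L →ₐ[K] ℂ), Function.Injective σ ∧ Function.Surjective σ ∧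
        σ ⟨0, hn0⟩ = Φ.comp L.val := by
      apply exists_enum
      rw [AlgHom.card, hLn]
    obtain ⟨σ, hσ1, hσ2, hσ0⟩ := hσ
    obtain ⟨z, hz1, hz2, hz3, hz4, α, hα1, hα2, hα3⟩ := field_data K L n k r e s hLn hk hr hcomb hs hX
      (by simpa using hLd) σ hσ1
    -- exponents are bounded
    have hαlt : ∀ c t, α c t < 2 * e + 4 := by
      rintro ⟨i | i, j⟩ t
      · rcases t with t | t
        · have h1 := (hα1 i j).1
          have h2 : α (Sum.inl i, j) (Sum.inl t) ≤ ∑ i', α (Sum.inl i, j) (Sum.inl i') :=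
            Finset.single_le_sum (f := fun i' => α (Sum.inl i, j) (Sum.inl i'))
              (fun _ _ => Nat.zero_le _) (Finset.mem_univ t)
          omega
        · have := (hα1 i j).2 t
          omega
      · rcases t with t | t
        · have h1 := (hα2 i j).1
          have h2 : α (Sum.inr i, j) (Sum.inl t) ≤ ∑ i', α (Sum.inr i, j) (Sum.inl i') :=
            Finset.single_le_sum (f := fun i' => α (Sum.inr i, j) (Sum.inl i'))
              (fun _ _ => Nat.zero_le _) (Finset.mem_univ t)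
          omega
        · have := (hα2 i j).2 t
          omega
    let A : AT := fun c t => ⟨α c t, hαlt c t⟩
    have hA : nat A = α := rfl
    have hXa : (1 : ℝ) ≤ X ^ a := Real.one_le_rpow hX ha0.le
    have hXb : (1 : ℝ) ≤ X ^ b := Real.one_le_rpow hX hb0.le
    have hXab : X ^ a ≤ X ^ b := Real.rpow_le_rpow_of_exponent_le hX hab
    have hPA : (1 : ℝ) ≤ M * X ^ a := one_le_mul_of_one_le_of_one_le hM1 hXa
    have hPB : (1 : ℝ) ≤ M * X ^ b := one_le_mul_of_one_le_of_one_le hM1 hXb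
    have hzA : ∀ i, house (z (Sum.inl i)) ≤ M * X ^ a := fun i =>
      (hz2 i).trans (mul_le_mul_of_nonneg_right hMC1 (by positivity))
    have hzB : ∀ i, house (z (Sum.inr i)) ≤ M * X ^ b := fun i =>
      (hz3 i).trans (mul_le_mul_of_nonneg_right hMC2 (by positivity))
    have hzall : ∀ i, house (z i) ≤ M * X ^ b := by
      rintro (i | i)
      · exact (hzA i).trans (mul_le_mul_of_nonneg_left hXab (by positivity))
      · exact hzB i
    have hint : ∀ c, IsIntegral ℤ (Algebra.trace K L (∏ t, z t ^ α c t)) := by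
      intro c
      apply Algebra.isIntegral_trace
      exact IsIntegral.prod _ (fun t _ => (hz1 t).pow _)
    let t : (Fin r ⊕ Fin (s + 1)) × Fin n → 𝓞 K := fun c =>
      ⟨Algebra.trace K L (∏ t, z t ^ α c t), hint c⟩
    let p : (Fin r ⊕ Fin (s + 1)) × Fin n → ℂ := fun x => σ x.2 (z x.1)
    have htBox : t ∈ Box X := by
      rw [Fintype.mem_piFinset]
      rintro ⟨i | i, j⟩
      · rw [Set.Finite.mem_toFinset]
        refine (house_trace_le K L _).trans ?_
        rw [hLn]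
        exact mul_le_mul_of_nonneg_left (house_prod_A z _ (hα1 i j) hPA hPB hzA hzB) hnr.le
      · rw [Set.Finite.mem_toFinset]
        refine (house_trace_le K L _).trans ?_
        rw [hLn]
        exact mul_le_mul_of_nonneg_left (house_prod_B z _ (hα2 i j) hPB hzall) hnr.le
    have hpm : pmap (Tpoly n (nat A)) p = alg t := by
      funext c
      rw [hA]
      change eval p (Tpoly n α c) = algebraMap K ℂ (Algebra.trace K L (∏ t, z t ^ α c t))
      rw [eval_Tpoly, trace_prod σ hσ1 hσ2]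
    have hjac : (jac (Tpoly n (nat A)) p).det ≠ 0 := by
      rw [hA, ← Matrix.det_transpose]
      convert hα3 using 2
      ext w c
      rw [Matrix.transpose_apply, Matrix.of_apply, gv_apply]
      change eval p (pderiv w (Tpoly n α c)) = _
      rw [eval_pderiv_Tpoly]
      rfl
    have hrec : rec' p = L := by
      have hset : {x | ∃ t, Φ x = p (t, ⟨0, hn0⟩)} = L.val '' Set.range z := by
        ext x
        constructor
        · rintro ⟨t, ht⟩
          refine ⟨z t, ⟨t, rfl⟩, ?_⟩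
          have h1 : p (t, ⟨0, hn0⟩) = Φ (L.val (z t)) := by
            change σ ⟨0, hn0⟩ (z t) = _
            rw [hσ0]
            rfl
          exact (Φ.toRingHom.injective (ht.trans h1)).symm
        · rintro ⟨_, ⟨t, rfl⟩, rfl⟩
          refine ⟨t, ?_⟩
          change _ = σ ⟨0, hn0⟩ (z t)
          rw [hσ0]
          rfl
      change IntermediateField.adjoin K {x | ∃ t, Φ x = p (t, ⟨0, hn0⟩)} = L
      rw [hset, ← IntermediateField.adjoin_map, hz4, ← AlgHom.fieldRange_eq_map,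
        IntermediateField.fieldRange_val]
    have hmem : p ∈ {q | pmap (Tpoly n (nat A)) q = alg t ∧ (jac (Tpoly n (nat A)) q).det ≠ 0} :=
      ⟨hpm, hjac⟩
    rw [Finset.mem_coe, Finset.mem_biUnion]
    refine ⟨(A, t), ?_, ?_⟩
    · rw [Finset.mem_product]
      exact ⟨Finset.mem_univ _, htBox⟩
    · rw [Finset.mem_image]
      exact ⟨p, (Set.Finite.mem_toFinset _).2 hmem, hrec⟩
  refine ⟨Fintype.card AT * ∑ A, D A, M, hM1, fun X hX => ?_⟩
  have h1 : Set.ncard {L : IntermediateField K (AlgebraicClosure K) | finrank K L = n ∧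
        ∃ h : NumberField L, ((|@NumberField.discr L _ h| : ℤ) : ℝ) ≤ X} ≤ (W X).card := by
    rw [← Set.ncard_coe_finset]
    exact Set.ncard_le_ncard (hreach X hX) (Finset.finite_toSet _)
  refine h1.trans ((hcardW X).trans (le_of_eq ?_))
  have h2 : (Box X).card = cnt K (BA X) ^ (r * n) * cnt K (BB X) ^ ((s + 1) * n) :=
    box_card K r (s + 1) n (BA X) (BB X)
  rw [h2]
  ring

lemma rpow_aux1 {M X a b : ℝ} (hX : 0 < X) (n : ℝ) (p q : ℕ) :
    n * ((M * X ^ a) ^ p * (M * X ^ b) ^ q) = (n * M ^ (p + q)) * X ^ (a * p + b * q) := by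
  rw [Real.rpow_add hX, Real.rpow_mul hX.le, Real.rpow_mul hX.le, Real.rpow_natCast,
    Real.rpow_natCast, mul_pow, mul_pow, pow_add]
  ring

lemma rpow_aux2 {M X b : ℝ} (hX : 0 < X) (n : ℝ) (q : ℕ) :
    n * (M * X ^ b) ^ q = (n * M ^ q) * X ^ (b * q) := by
  rw [Real.rpow_mul hX.le, Real.rpow_natCast, mul_pow]
  ring

lemma rpow_aux3 {c X w : ℝ} (hX : 0 < X) (m : ℕ) :
    (5 * (c * X ^ w)) ^ m = (5 * c) ^ m * X ^ (w * m) := by
  rw [Real.rpow_mul hX.le, Real.rpow_natCast, ← mul_pow]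
  ring

theorem count_bound (K : Type) [Field K] [NumberField K] (n k r e s : ℕ) (hk4 : 4 * k ≤ 3 * n)
    (hk : k < n) (hr : 0 < r) (hcomb : r * (k + 1) ≤ (r + e - 1).choose e)
    (hs : (r + 1) * n * n ^ s < (k + 1) * (n + (k + 1)) ^ s) :
    ∃ C : ℝ, 0 < C ∧ ∀ X : ℝ, 1 ≤ X →
      ((Set.ncard {L : IntermediateField K (AlgebraicClosure K) | finrank K L = n ∧
        ∃ h : NumberField L, ((|@NumberField.discr L _ h| : ℤ) : ℝ) ≤ X} : ℕ) : ℝ) ≤
        C * X ^ ((1 / (2 * (finrank ℚ K : ℝ) * ((n : ℝ) - k)) * (e + 1) +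
            2 / ((finrank ℚ K : ℝ) * n) * (s + 1)) * ((finrank ℚ K : ℝ) * (r * n)) +
          (2 / ((finrank ℚ K : ℝ) * n) * (2 * e + 1 + 3 * (s + 1))) *
            ((finrank ℚ K : ℝ) * ((s + 1) * n))) := by
  obtain ⟨N, M, hM1, h⟩ := count_core K n k r e s hk4 hk hr hcomb hs
  have hn0 : 0 < n := by omega
  have hn1 : (1 : ℝ) ≤ n := by exact_mod_cast hn0
  have hkn : (0 : ℝ) < (n : ℝ) - k := by
    have : (k : ℝ) < n := by exact_mod_cast hk
    linarith
  set δ := finrank ℚ K with hδ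
  have hδ0 : 0 < δ := Module.finrank_pos
  have hδr : (0 : ℝ) < δ := by exact_mod_cast hδ0
  set a : ℝ := 1 / (2 * (δ : ℝ) * ((n : ℝ) - k)) with ha
  set b : ℝ := 2 / ((δ : ℝ) * n) with hb
  have ha0 : 0 < a := by rw [ha]; positivity
  have hb0 : 0 < b := by rw [hb]; positivity
  clear_value a b
  set cA : ℝ := n * M ^ ((e + 1) + (s + 1)) with hcA
  set cB : ℝ := n * M ^ (2 * e + 1 + 3 * (s + 1)) with hcB
  have hcA0 : 0 < cA := by positivity
  have hcB0 : 0 < cB := by positivity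
  refine ⟨((N : ℝ) + 1) * ((5 * cA) ^ (δ * (r * n)) * (5 * cB) ^ (δ * ((s + 1) * n))),
    by positivity, ?_⟩
  intro X hX
  have hX0 : (0 : ℝ) < X := by linarith
  have hXa : (1 : ℝ) ≤ X ^ a := Real.one_le_rpow hX ha0.le
  have hXb : (1 : ℝ) ≤ X ^ b := Real.one_le_rpow hX hb0.le
  have hPA : (1 : ℝ) ≤ M * X ^ a := one_le_mul_of_one_le_of_one_le hM1 hXa
  have hPB : (1 : ℝ) ≤ M * X ^ b := one_le_mul_of_one_le_of_one_le hM1 hXb
  set BA : ℝ := n * ((M * X ^ a) ^ (e + 1) * (M * X ^ b) ^ (s + 1)) with hBA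
  set BB : ℝ := n * (M * X ^ b) ^ (2 * e + 1 + 3 * (s + 1)) with hBB
  have hBA1 : 1 ≤ BA := one_le_mul_of_one_le_of_one_le hn1
    (one_le_mul_of_one_le_of_one_le (one_le_pow₀ hPA) (one_le_pow₀ hPB))
  have hBB1 : 1 ≤ BB := one_le_mul_of_one_le_of_one_le hn1 (one_le_pow₀ hPB)
  have hcnt : ∀ T : ℝ, 1 ≤ T → (cnt K T : ℝ) ≤ (5 * T) ^ δ := by
    intro T hT
    refine (cnt_le K (by linarith)).trans ?_
    exact pow_le_pow_left₀ (by linarith) (by linarith) _
  have h1 : ((Set.ncard {L : IntermediateField K (AlgebraicClosure K) | finrank K L = n ∧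
        ∃ h : NumberField L, ((|@NumberField.discr L _ h| : ℤ) : ℝ) ≤ X} : ℕ) : ℝ) ≤
      N * ((cnt K BA : ℝ) ^ (r * n) * (cnt K BB : ℝ) ^ ((s + 1) * n)) := by
    exact_mod_cast h X hX
  have hA1 : (cnt K BA : ℝ) ^ (r * n) ≤ (5 * cA) ^ (δ * (r * n)) *
      X ^ ((a * ((e + 1 : ℕ) : ℝ) + b * ((s + 1 : ℕ) : ℝ)) * ((δ * (r * n) : ℕ) : ℝ)) := by
    rw [← rpow_aux3 hX0, ← rpow_aux1 hX0, pow_mul (5 * _) δ]
    exact pow_le_pow_left₀ (by positivity) (hcnt _ hBA1) _
  have hB1 : (cnt K BB : ℝ) ^ ((s + 1) * n) ≤ (5 * cB) ^ (δ * ((s + 1) * n)) *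
      X ^ ((b * ((2 * e + 1 + 3 * (s + 1) : ℕ) : ℝ)) * ((δ * ((s + 1) * n) : ℕ) : ℝ)) := by
    rw [← rpow_aux3 hX0, ← rpow_aux2 hX0, pow_mul (5 * _) δ]
    exact pow_le_pow_left₀ (by positivity) (hcnt _ hBB1) _
  refine h1.trans ?_
  calc (N : ℝ) * ((cnt K BA : ℝ) ^ (r * n) * (cnt K BB : ℝ) ^ ((s + 1) * n))
      ≤ ((N : ℝ) + 1) * (((5 * cA) ^ (δ * (r * n)) *
        X ^ ((a * ((e + 1 : ℕ) : ℝ) + b * ((s + 1 : ℕ) : ℝ)) * ((δ * (r * n) : ℕ) : ℝ))) *
        ((5 * cB) ^ (δ * ((s + 1) * n)) *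
      X ^ ((b * ((2 * e + 1 + 3 * (s + 1) : ℕ) : ℝ)) * ((δ * ((s + 1) * n) : ℕ) : ℝ)))) := by
        apply mul_le_mul (by linarith) _ (by positivity) (by positivity)
        exact mul_le_mul hA1 hB1 (by positivity) (by positivity)
    _ = _ := by
        have e1 : (a * (e + 1) + b * (s + 1)) * ((δ : ℝ) * (r * n)) +
            (b * (2 * e + 1 + 3 * (s + 1))) * ((δ : ℝ) * ((s + 1) * n)) =
            (a * ((e + 1 : ℕ) : ℝ) + b * ((s + 1 : ℕ) : ℝ)) * ((δ * (r * n) : ℕ) : ℝ) +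
            (b * ((2 * e + 1 + 3 * (s + 1) : ℕ) : ℝ)) * ((δ * ((s + 1) * n) : ℕ) : ℝ) := by
          push_cast; ring
        rw [e1, Real.rpow_add hX0]
        ring

end Pool.Agent.Helper58.NF
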