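import Mathlib
import Pool.Agent.Helper58.NF.Asym
import Pool.Agent.Helper58.NF.Count

set_option autoImplicit false

namespace Pool.Agent.Helper58.NF

open Filter Topology Module NumberField

lemma comb_cond {m n k : ℕ} (hm : 0 < m) (hk : k + 1 ≤ n)
    (h : (2 * (m : ℝ) * ((m : ℝ) + 1)) * n ≤ 4 ^ m) :
    (m + 1) * (k + 1) ≤ (m + 1 + m - 1).choose m := by
  have h0 : 2 * m * (m + 1) * n ≤ 4 ^ m := by exact_mod_cast h
  have h1 := Nat.four_pow_le_two_mul_self_mul_centralBinom m hm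
  have h2 : (2 * m) * ((m + 1) * n) ≤ (2 * m) * Nat.centralBinom m := by
    calc (2 * m) * ((m + 1) * n) = 2 * m * (m + 1) * n := by ring
      _ ≤ _ := h0.trans h1
  have h3 : (m + 1) * n ≤ Nat.centralBinom m := Nat.le_of_mul_le_mul_left h2 (by omega)
  have h4 : (m + 1 + m - 1).choose m = Nat.centralBinom m := by
    rw [Nat.centralBinom_eq_two_mul_choose]
    congr 1
    omega
  rw [h4]
  exact (Nat.mul_le_mul_left _ hk).trans h3

lemma doubling_cond {q t m n k : ℕ} (hn : 0 < n) (hk : n < q * (k + 1))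
    (h : ((m : ℝ) + 2) * q ≤ 2 ^ t) :
    (m + 1 + 1) * n * n ^ (q * t) < (k + 1) * (n + (k + 1)) ^ (q * t) := by
  have h0 : (m + 2) * q ≤ 2 ^ t := by exact_mod_cast h
  have hnr : (0 : ℝ) < n := by exact_mod_cast hn
  have h1 : 2 * (n : ℝ) ^ q ≤ ((n : ℝ) + (k + 1)) ^ q := by
    have hb := one_add_mul_le_pow (R := ℝ) (a := ((k : ℝ) + 1) / n)
      (by
        have : (0 : ℝ) ≤ ((k : ℝ) + 1) / n := by positivity
        linarith) q
    have h2 : (1 : ℝ) ≤ q * (((k : ℝ) + 1) / n) := by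
      rw [← mul_div_assoc, le_div_iff₀ hnr, one_mul]
      exact_mod_cast hk.le
    have h3 : (2 : ℝ) ≤ (1 + ((k : ℝ) + 1) / n) ^ q := by linarith
    have h4 : ((n : ℝ) + (k + 1)) ^ q = (1 + ((k : ℝ) + 1) / n) ^ q * (n : ℝ) ^ q := by
      rw [← mul_pow]
      congr 1
      field_simp
    rw [h4]
    exact mul_le_mul_of_nonneg_right h3 (by positivity)
  have h5 : 2 * n ^ q ≤ (n + (k + 1)) ^ q := by exact_mod_cast h1
  have h6 : 2 ^ t * n ^ (q * t) ≤ (n + (k + 1)) ^ (q * t) := by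
    rw [pow_mul, pow_mul, ← mul_pow]
    exact Nat.pow_le_pow_left h5 t
  calc (m + 1 + 1) * n * n ^ (q * t) < (m + 2) * (q * (k + 1)) * n ^ (q * t) := by
        apply Nat.mul_lt_mul_of_pos_right _ (by positivity)
        exact Nat.mul_lt_mul_of_pos_left hk (by omega)
    _ = (k + 1) * (((m + 2) * q) * n ^ (q * t)) := by ring
    _ ≤ (k + 1) * (2 ^ t * n ^ (q * t)) :=
        Nat.mul_le_mul_left _ (Nat.mul_le_mul_right _ h0)
    _ ≤ _ := Nat.mul_le_mul_left _ h6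

lemma exponent_le {n k m q δ : ℕ} {s l : ℝ} (hn : 0 < n) (hq : 4 ≤ q) (hk : q * k ≤ n) (hδ : 0 < δ)
    (hm : m = mm (1 / (q : ℝ)) l) (hs : s = q * tt (1 / (q : ℝ)) l) :
    (1 / (2 * (δ : ℝ) * ((n : ℝ) - k)) * ((m : ℝ) + 1) + 2 / ((δ : ℝ) * n) * (s + 1)) *
        ((δ : ℝ) * (((m + 1 : ℕ) : ℝ) * n)) +
      (2 / ((δ : ℝ) * n) * (2 * (m : ℝ) + 1 + 3 * (s + 1))) * ((δ : ℝ) * ((s + 1) * n)) ≤ EE q l := by
  have hnr : (0 : ℝ) < n := by exact_mod_cast hn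
  have hδr : (0 : ℝ) < δ := by exact_mod_cast hδ
  have hqr : (4 : ℝ) ≤ q := by exact_mod_cast hq
  have hq0 : (0 : ℝ) < q := by linarith
  have hkr : (q : ℝ) * k ≤ n := by exact_mod_cast hk
  have hk' : (k : ℝ) ≤ 1 / q * n := by
    rw [one_div, inv_mul_eq_div, le_div_iff₀ hq0]
    linarith
  have hx1 : (1 : ℝ) / q ≤ 1 / 4 := one_div_le_one_div_of_le (by norm_num) hqr
  have hkn : (0 : ℝ) < (n : ℝ) - k := by nlinarith
  have hEE : EE q l = 1 / (2 * (1 - 1 / (q : ℝ))) * ((m : ℝ) + 1) ^ 2 +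
      2 * ((m : ℝ) + 1) * (s + 1) + 2 * (s + 1) * (2 * m + 1 + 3 * (s + 1)) := by
    rw [hm, hs]; rfl
  rw [hEE]
  have e1 : (1 / (2 * (δ : ℝ) * ((n : ℝ) - k)) * ((m : ℝ) + 1) + 2 / ((δ : ℝ) * n) * (s + 1)) *
        ((δ : ℝ) * (((m + 1 : ℕ) : ℝ) * n)) +
      (2 / ((δ : ℝ) * n) * (2 * (m : ℝ) + 1 + 3 * (s + 1))) * ((δ : ℝ) * ((s + 1) * n)) =
      n / (2 * ((n : ℝ) - k)) * ((m : ℝ) + 1) ^ 2 + 2 * ((m : ℝ) + 1) * (s + 1) +
        2 * (s + 1) * (2 * m + 1 + 3 * (s + 1)) := by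
    push_cast
    field_simp
  rw [e1]
  have e2 : n / (2 * ((n : ℝ) - k)) ≤ 1 / (2 * (1 - 1 / (q : ℝ))) := by
    rw [div_le_div_iff₀ (by positivity) (by linarith)]
    nlinarith
  have e3 : n / (2 * ((n : ℝ) - k)) * ((m : ℝ) + 1) ^ 2 ≤
      1 / (2 * (1 - 1 / (q : ℝ))) * ((m : ℝ) + 1) ^ 2 :=
    mul_le_mul_of_nonneg_right e2 (by positivity)
  linarith

theorem upper (η : ℝ) (hη : 0 < η) : ∃ n0 : ℕ, ∀ n : ℕ, n0 ≤ n →
    ∀ (K : Type) [Field K] [NumberField K], ∃ C : ℝ, 0 < C ∧ ∀ X : ℝ, 1 ≤ X →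
      {L : IntermediateField K (AlgebraicClosure K) | finrank K L = n ∧
        ∃ h : NumberField L, ((|@NumberField.discr L _ h| : ℤ) : ℝ) ≤ X}.Finite ∧
      ((Set.ncard {L : IntermediateField K (AlgebraicClosure K) | finrank K L = n ∧
        ∃ h : NumberField L, ((|@NumberField.discr L _ h| : ℤ) : ℝ) ≤ X} : ℕ) : ℝ) ≤
        C * X ^ ((1 / (8 * Real.log 2 ^ 2) + η) * Real.log n ^ 2) := by
  obtain ⟨q, hq4, hq⟩ := exists_q hη
  have hev : ∀ᶠ l : ℝ in atTop, EE q l ≤ (1 / (8 * Real.log 2 ^ 2) + η) * l ^ 2 := by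
    filter_upwards [(tendsto_EE q hq4).eventually_lt_const hq, eventually_gt_atTop (0 : ℝ)]
      with l h1 h2
    rw [div_lt_iff₀ (by positivity)] at h1
    exact h1.le
  have hlog : Tendsto (fun n : ℕ => Real.log n) atTop atTop :=
    Real.tendsto_log_atTop.comp tendsto_natCast_atTop_atTop
  have hall := hlog.eventually (hev.and (eventually_conditions q hq4))
  obtain ⟨n0, hn0⟩ := eventually_atTop.1 (hall.and (eventually_ge_atTop 2))
  refine ⟨n0, fun n hn K _ _ => ?_⟩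
  obtain ⟨⟨h1, h2, h3, h4⟩, h5⟩ := hn0 n hn
  set m := mm (1 / (q : ℝ)) (Real.log n) with hm
  set t := tt (1 / (q : ℝ)) (Real.log n) with ht
  have hnpos : 0 < n := by omega
  have hnr : (0 : ℝ) < n := by exact_mod_cast hnpos
  rw [Real.exp_log hnr] at h3
  have hq0 : 0 < q := by omega
  set k := n / q with hk
  have hqk : q * k ≤ n := Nat.mul_div_le n q
  have hqk' : n < q * (k + 1) := by
    have := Nat.lt_mul_div_succ n hq0
    simpa [Nat.succ_eq_add_one] using this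
  have h4k : 4 * k ≤ n := (Nat.mul_le_mul_right k hq4).trans hqk
  have hkn : k + 1 ≤ n := by omega
  obtain ⟨C, hC, hb⟩ := count_bound K n k (m + 1) m (q * t) (by omega) (by omega) (by omega)
    (comb_cond h2 hkn h3) (doubling_cond hnpos hqk' h4)
  refine ⟨C, hC, fun X hX => ⟨Pool.Agent.helper22.finite_problem_set K n X, ?_⟩⟩
  refine (hb X hX).trans ?_
  apply mul_le_mul_of_nonneg_left _ hC.le
  apply Real.rpow_le_rpow_of_exponent_le hX
  refine le_trans (le_of_eq ?_) ((exponent_le (δ := finrank ℚ K) (s := ((q * t : ℕ) : ℝ)) hnpos hq4 hqk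
    Module.finrank_pos hm (by push_cast; rfl)).trans h1)
  push_cast
  ring

end Pool.Agent.Helper58.NF
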