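import Mathlib
import Pool.Agent.Helper58.NF.Fin

set_option autoImplicit false

namespace Pool.Agent.Helper58.NF.UpperHalf

/-- For every `η > 0` and all `n` large in terms of `η` only, for every number field `K`, the number
of extensions of `K` of degree `n` inside the algebraic closure with absolute discriminant at most
`X` is `O (X ^ ((1 / (8 log² 2) + η) * (log n) ^ 2))`, with a constant depending on `n`, `K`, `η`. -/
theorem result (η : ℝ) (hη : 0 < η) : ∃ n0 : ℕ, ∀ n : ℕ, n0 ≤ n →
    ∀ (K : Type) [Field K] [NumberField K], ∃ C : ℝ, 0 < C ∧ ∀ X : ℝ, 1 ≤ X →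
      {L : IntermediateField K (AlgebraicClosure K) | Module.finrank K L = n ∧
        ∃ h : NumberField L, ((|@NumberField.discr L _ h| : ℤ) : ℝ) ≤ X}.Finite ∧
      ((Set.ncard {L : IntermediateField K (AlgebraicClosure K) | Module.finrank K L = n ∧
        ∃ h : NumberField L, ((|@NumberField.discr L _ h| : ℤ) : ℝ) ≤ X} : ℕ) : ℝ) ≤
        C * X ^ ((1 / (8 * Real.log 2 ^ 2) + η) * Real.log n ^ 2) :=
  Pool.Agent.Helper58.NF.upper η hη

end Pool.Agent.Helper58.NF.UpperHalf
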